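import Mathlib

/-!
Laws of groups, classes of groups, locally nilpotent groups; the core lemmas used for the
finite basis results on locally nilpotent parts of varieties of finite exponent.
-/

namespace Pool.Agent.H63FB

open Subgroup

universe u

/-- A group word: an element of the free group on countably many variables. -/
abbrev Word : Type := FreeGroup ℕ

/-- The group `G` satisfies the law `w = 1`: every assignment of the variables sends `w` to `1`. -/
def Sat (G : Type u) [Group G] (w : Word) : Prop := ∀ f : ℕ → G, FreeGroup.lift f w = 1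

/-- `G` belongs to the variety defined by the laws `w = 1`, `w` in `S`. -/
def InVar (S : Set Word) (G : Type u) [Group G] : Prop := ∀ w ∈ S, Sat G w

/-- `G` is locally nilpotent: every finitely generated subgroup is nilpotent. -/
def LocNilp (G : Type u) [Group G] : Prop := ∀ K : Subgroup G, K.FG → Group.IsNilpotent K

/-- `G` satisfies the law `x ^ n = 1`. -/
def ExpDvd (n : ℕ) (G : Type u) [Group G] : Prop := ∀ g : G, g ^ n = 1

/-- The class `C` of groups is a finitely based variety: it is the class of all groups which
satisfy the laws of some finite set. -/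
def FinBased (C : ∀ (G : Type u), Group G → Prop) : Prop :=
  ∃ S : Finset Word, ∀ (G : Type u) (inst : Group G), C G inst ↔ InVar (S : Set Word) G

/-- `G` lies in the product of the variety of groups of class at most `c` and the variety of
locally nilpotent groups of exponent dividing `e`: some normal subgroup `N` is nilpotent of class
at most `c` and `G / N` is locally nilpotent of exponent dividing `e`. -/
def InNB (c e : ℕ) (G : Type u) [Group G] : Prop :=
  ∃ (N : Subgroup G) (_ : N.Normal), (⊤ : Subgroup N).lowerCentralSeries c = ⊥ ∧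
    LocNilp (G ⧸ N) ∧ ExpDvd e (G ⧸ N)

/-- `G` lies in the product in the other order: some normal subgroup `N` is locally nilpotent of
exponent dividing `e` and `G / N` is nilpotent of class at most `c`. -/
def InBN (c e : ℕ) (G : Type u) [Group G] : Prop :=
  ∃ (N : Subgroup G) (_ : N.Normal), LocNilp N ∧ ExpDvd e N ∧
    (⊤ : Subgroup (G ⧸ N)).lowerCentralSeries c = ⊥

/-- The variety defined by `S` is a strong generalised Burnside variety, with the constants `c`
and `e`: every locally nilpotent group in it lies in both products. -/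
def IsSGB (c e : ℕ) (S : Set Word) : Prop :=
  0 < c ∧ 0 < e ∧ ∀ (G : Type u) (_ : Group G), InVar S G → LocNilp G → InNB c e G ∧ InBN c e G

/-- The class of the locally nilpotent groups in the variety defined by `S`. -/
def Bar (S : Set Word) : ∀ (G : Type u), Group G → Prop := fun G _ => InVar S G ∧ LocNilp G

/-- The class of the locally nilpotent groups of exponent dividing `n` in the variety defined
by `S`. -/
def BarExp (S : Set Word) (n : ℕ) : ∀ (G : Type u), Group G → Prop :=
  fun G _ => InVar S G ∧ LocNilp G ∧ ExpDvd n G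

/-- `G` is locally finite: every finitely generated subgroup is finite. -/
def LocFin (G : Type u) [Group G] : Prop := ∀ K : Subgroup G, K.FG → Finite K

/-! ### Basic facts on laws -/

lemma map_lift {G H : Type u} [Group G] [Group H] (φ : G →* H) (f : ℕ → G) (w : Word) :
    φ (FreeGroup.lift f w) = FreeGroup.lift (fun i => φ (f i)) w := by
  have h : φ.comp (FreeGroup.lift f) = FreeGroup.lift (fun i => φ (f i)) := by
    ext i
    simp
  exact DFunLike.congr_fun h w

lemma sat_of_injective {G H : Type u} [Group G] [Group H] (φ : G →* H)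
    (hφ : Function.Injective φ) {w : Word} (hw : Sat H w) : Sat G w := by
  intro f
  apply hφ
  rw [map_lift, map_one]
  exact hw _

lemma sat_of_surjective {G H : Type u} [Group G] [Group H] (φ : G →* H)
    (hφ : Function.Surjective φ) {w : Word} (hw : Sat G w) : Sat H w := by
  intro f
  choose g hg using hφ
  have h := hw (fun i => g (f i))
  have h2 := congrArg φ h
  rw [map_lift, map_one] at h2
  simpa [hg] using h2

lemma sat_subgroup {G : Type u} [Group G] (K : Subgroup G) {w : Word} (hw : Sat G w) :
    Sat K w := sat_of_injective K.subtype K.subtype_injective hw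

lemma sat_pow_iff {G : Type u} [Group G] (n : ℕ) :
    Sat G (FreeGroup.of 0 ^ n) ↔ ExpDvd n G := by
  constructor
  · intro h g
    have := h (fun _ => g)
    simpa using this
  · intro h f
    simpa using h (f 0)

/-- The commutator word of `x_0 ^ a` and `x_1 ^ b`. -/
def commWord (a b : ℕ) : Word :=
  FreeGroup.of 0 ^ a * FreeGroup.of 1 ^ b * (FreeGroup.of 0 ^ a)⁻¹ * (FreeGroup.of 1 ^ b)⁻¹

lemma sat_comm_iff {G : Type u} [Group G] (a b : ℕ) :
    Sat G (commWord a b) ↔ ∀ x y : G, Commute (x ^ a) (y ^ b) := by
  constructor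
  · intro h x y
    have h1 := h (fun i => if i = 0 then x else y)
    simp only [commWord, map_mul, map_pow, map_inv, FreeGroup.lift_apply_of, if_true, one_ne_zero,
      if_false] at h1
    have h2 : x ^ a * y ^ b = y ^ b * x ^ a := by
      have h3 := mul_inv_eq_one.mp h1
      rw [mul_inv_eq_iff_eq_mul] at h3
      exact h3
    exact h2
  · intro h f
    simp only [commWord, map_mul, map_pow, map_inv, FreeGroup.lift_apply_of]
    have h2 : f 0 ^ a * f 1 ^ b = f 1 ^ b * f 0 ^ a := h (f 0) (f 1)
    rw [h2]
    group

/-- Substitute `x_i ^ m` for the variable `x_i`. -/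
def powSubst (m : ℕ) (w : Word) : Word := FreeGroup.lift (fun i => FreeGroup.of i ^ m) w

lemma lift_powSubst {G : Type u} [Group G] (m : ℕ) (f : ℕ → G) (w : Word) :
    FreeGroup.lift f (powSubst m w) = FreeGroup.lift (fun i => f i ^ m) w := by
  have h : (FreeGroup.lift f).comp (FreeGroup.lift (fun i => (FreeGroup.of i : Word) ^ m)) =
      FreeGroup.lift (fun i => f i ^ m) := by
    ext i
    simp
  exact DFunLike.congr_fun h w

/-! ### Local nilpotence passes to subgroups -/

lemma locNilp_of_injective {G H : Type u} [Group G] [Group H] (φ : G →* H)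
    (hφ : Function.Injective φ) (hH : LocNilp H) : LocNilp G := by
  intro K hK
  have h1 : (K.map φ).FG := by
    obtain ⟨s, hs⟩ := hK
    classical
    refine ⟨s.image φ, ?_⟩
    rw [Finset.coe_image, ← MonoidHom.map_closure, hs]
  have h2 := hH _ h1
  exact Group.nilpotent_of_mulEquiv (K.equivMapOfInjective φ hφ).symm

lemma LocNilp.subgroup {G : Type u} [Group G] (h : LocNilp G) (K : Subgroup G) : LocNilp K :=
  locNilp_of_injective K.subtype K.subtype_injective h

lemma LocNilp.of_fg {G : Type u} [Group G] (h : LocNilp G) [Group.FG G] : Group.IsNilpotent G := by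
  have h1 := h ⊤ Group.FG.out
  exact Group.isNilpotent_top.mp h1

/-! ### Arithmetic of the maximal prime power parts -/

lemma mem_of_pow_mem {G : Type u} [Group G] {n : ℕ} (hn : 0 < n) (g : G) (hg : g ^ n = 1)
    (K : Subgroup G) (h : ∀ p ∈ n.primeFactors, g ^ (n / p ^ n.factorization p) ∈ K) : g ∈ K := by
  classical
  have hex : ∃ d, 0 < d ∧ g ^ d ∈ K := ⟨n, hn, by rw [hg]; exact K.one_mem⟩
  have hd1 : 0 < Nat.find hex := (Nat.find_spec hex).1
  have hd2 : g ^ (Nat.find hex) ∈ K := (Nat.find_spec hex).2
  have hdvd : ∀ k, g ^ k ∈ K → Nat.find hex ∣ k := by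
    intro k hk
    rw [Nat.dvd_iff_mod_eq_zero]
    by_contra hne
    have hlt : k % Nat.find hex < Nat.find hex := Nat.mod_lt _ hd1
    have hmem : g ^ (k % Nat.find hex) ∈ K := by
      have h1 : g ^ k = (g ^ Nat.find hex) ^ (k / Nat.find hex) * g ^ (k % Nat.find hex) := by
        rw [← pow_mul, ← pow_add, Nat.div_add_mod]
      have h2 : g ^ (k % Nat.find hex) = ((g ^ Nat.find hex) ^ (k / Nat.find hex))⁻¹ * g ^ k := by
        rw [h1]; group
      rw [h2]
      exact K.mul_mem (K.inv_mem (K.pow_mem hd2 _)) hk
    exact Nat.find_min hex hlt ⟨Nat.pos_of_ne_zero hne, hmem⟩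
  have hd_one : Nat.find hex = 1 := by
    by_contra hne
    obtain ⟨p, hp, hpd⟩ := Nat.exists_prime_and_dvd hne
    have hdn : Nat.find hex ∣ n := hdvd n (by rw [hg]; exact K.one_mem)
    have hpn : p ∈ n.primeFactors := Nat.mem_primeFactors.mpr ⟨hp, hpd.trans hdn, hn.ne'⟩
    exact Nat.not_dvd_ordCompl hp hn.ne' (hpd.trans (hdvd _ (h p hpn)))
  rw [hd_one, pow_one] at hd2
  exact hd2

lemma qdvd {n p p' : ℕ} (hp : p.Prime) (hp' : p'.Prime) (hne : p' ≠ p) :
    p ^ n.factorization p ∣ n / p' ^ n.factorization p' := by
  have h1 : p ^ n.factorization p ∣ p' ^ n.factorization p' * (n / p' ^ n.factorization p') := by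
    rw [Nat.ordProj_mul_ordCompl_eq_self]
    exact Nat.ordProj_dvd n p
  have h2 : Nat.Coprime (p ^ n.factorization p) (p' ^ n.factorization p') :=
    Nat.Coprime.pow _ _ ((Nat.coprime_primes hp hp').mpr (Ne.symm hne))
  exact h2.dvd_of_dvd_mul_left h1

lemma qm_coprime {n p : ℕ} (hn : 0 < n) (hp : p.Prime) :
    Nat.Coprime (p ^ n.factorization p) (n / p ^ n.factorization p) :=
  Nat.Coprime.pow_left _ (Nat.coprime_ordCompl hp hn.ne')

lemma qm_mul (n p : ℕ) : p ^ n.factorization p * (n / p ^ n.factorization p) = n :=
  Nat.ordProj_mul_ordCompl_eq_self n p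

/-! ### The core lemma -/

/-- The subgroup generated by all `m`-th powers. -/
def PowGen (H : Type u) [Group H] (m : ℕ) : Subgroup H := closure (Set.range fun x : H => x ^ m)

lemma pow_mem_center {n : ℕ} (hn : 0 < n) {H : Type u} [Group H] (hexp : ExpDvd n H)
    (hcomm : ∀ p ∈ n.primeFactors, ∀ x y : H,
      Commute (x ^ (p ^ n.factorization p)) (y ^ (n / p ^ n.factorization p)))
    {p : ℕ} (hp : p ∈ n.primeFactors) {k : H} (hk : k ∈ PowGen H (n / p ^ n.factorization p)) :
    k ^ (p ^ n.factorization p) ∈ center H := by
  rw [mem_center_iff]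
  intro h
  have hpp := Nat.prime_of_mem_primeFactors hp
  have key : h ∈ centralizer {k ^ (p ^ n.factorization p)} := by
    apply mem_of_pow_mem hn h (hexp h)
    intro p' hp'
    have hpp' := Nat.prime_of_mem_primeFactors hp'
    rw [mem_centralizer_singleton_iff]
    by_cases hne : p' = p
    · subst hne
      exact (hcomm p' hp' k h).symm.eq
    · obtain ⟨c, hc⟩ := qdvd hpp hpp' hne
      have hk' : k ∈ centralizer {h ^ (n / p' ^ n.factorization p')} := by
        have hle : PowGen H (n / p ^ n.factorization p) ≤
            centralizer {h ^ (n / p' ^ n.factorization p')} := by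
          rw [PowGen, closure_le]
          rintro _ ⟨x, rfl⟩
          rw [SetLike.mem_coe, mem_centralizer_singleton_iff]
          rw [hc, mul_comm (p ^ n.factorization p) c, pow_mul]
          exact (hcomm p hp (h ^ c) x).symm.eq
        exact hle hk
      rw [mem_centralizer_singleton_iff] at hk'
      have hk'' : Commute k (h ^ (n / p' ^ n.factorization p')) := hk'
      exact (hk''.pow_left _).symm.eq
  rw [mem_centralizer_singleton_iff] at key
  exact key

lemma commute_closure {G : Type u} [Group G] {A B : Set G}
    (h : ∀ a ∈ A, ∀ b ∈ B, Commute a b) {x y : G} (hx : x ∈ closure A) (hy : y ∈ closure B) :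
    Commute x y := by
  have h1 : ∀ a ∈ A, closure B ≤ centralizer {a} := by
    intro a ha
    rw [closure_le]
    intro b hb
    rw [SetLike.mem_coe, mem_centralizer_singleton_iff]
    exact (h a ha b hb).symm.eq
  have h2 : closure A ≤ centralizer {y} := by
    rw [closure_le]
    intro a ha
    rw [SetLike.mem_coe, mem_centralizer_singleton_iff]
    have := h1 a ha hy
    rw [mem_centralizer_singleton_iff] at this
    exact this.symm
  have h3 := h2 hx
  rw [mem_centralizer_singleton_iff] at h3
  exact h3

/-- A finitely generated group of exponent dividing `n` in which `x ^ q_p` commutes with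
`y ^ (n / q_p)` for every prime `p ∣ n` is nilpotent as soon as the finitely generated subgroups
of the `p`-parts of the central quotient are nilpotent. -/
lemma nilpotent_of_parts {n : ℕ} (hn : 0 < n) {H : Type u} [Group H] [hfg : Group.FG H]
    (hexp : ExpDvd n H)
    (hcomm : ∀ p ∈ n.primeFactors, ∀ x y : H,
      Commute (x ^ (p ^ n.factorization p)) (y ^ (n / p ^ n.factorization p)))
    (hL : ∀ p ∈ n.primeFactors, ∀ L : Subgroup (H ⧸ center H), L.FG →
      L ≤ (PowGen H (n / p ^ n.factorization p)).map (QuotientGroup.mk' (center H)) →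
      Group.IsNilpotent L) : Group.IsNilpotent H := by
  classical
  apply Group.of_quotient_center_nilpotent
  obtain ⟨s, hs⟩ := hfg.out
  let π : H →* H ⧸ center H := QuotientGroup.mk' (center H)
  let L : {p // p ∈ n.primeFactors} → Subgroup (H ⧸ center H) := fun p =>
    closure ((fun h : H => π h ^ (n / p.1 ^ n.factorization p.1)) '' (s : Set H))
  have hcommL : Pairwise fun i j : {p // p ∈ n.primeFactors} =>
      ∀ x y : H ⧸ center H, x ∈ L i → y ∈ L j → Commute x y := by
    intro i j hij x y hx hy
    refine commute_closure ?_ hx hy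
    rintro _ ⟨a, _, rfl⟩ _ ⟨b, _, rfl⟩
    have hpi := Nat.prime_of_mem_primeFactors i.2
    have hpj := Nat.prime_of_mem_primeFactors j.2
    have hne : (j : ℕ) ≠ i := fun h => hij (Subtype.ext h.symm)
    obtain ⟨c, hc⟩ := qdvd hpi hpj hne
    have h1 := hcomm i.1 i.2 (b ^ c) a
    rw [← pow_mul, mul_comm c, ← hc] at h1
    have h2 := h1.symm.map π
    simpa only [map_pow] using h2
  have hnil : ∀ i, Group.IsNilpotent (L i) := by
    intro i
    apply hL i.1 i.2
    · exact ⟨s.image (fun h : H => π h ^ (n / i.1 ^ n.factorization i.1)), by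
        rw [Finset.coe_image]⟩
    · rw [closure_le]
      rintro _ ⟨a, _, rfl⟩
      refine ⟨a ^ (n / i.1 ^ n.factorization i.1), ?_, by simp [π]⟩
      exact subset_closure ⟨a, rfl⟩
  have htop : ⨆ i, L i = ⊤ := by
    rw [eq_top_iff]
    have h1 : (⊤ : Subgroup (H ⧸ center H)) = closure (π '' (s : Set H)) := by
      rw [← MonoidHom.map_closure, hs]
      exact (Subgroup.map_top_of_surjective π (QuotientGroup.mk'_surjective _)).symm
    rw [h1, closure_le]
    rintro _ ⟨a, ha, rfl⟩
    apply mem_of_pow_mem hn
    · rw [← map_pow, hexp a, map_one]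
    · intro p hp
      exact (le_iSup L ⟨p, hp⟩) (subset_closure ⟨a, ha, rfl⟩)
  have := hnil
  apply Group.nilpotent_of_surjective (Subgroup.noncommPiCoprod hcommL)
  rw [← MonoidHom.range_eq_top, Subgroup.noncommPiCoprod_range, htop]

end Pool.Agent.H63FB
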