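import Pool.Agent.H63FB.Nilp

/-!
The reduction of the finite basis question for the locally nilpotent part of a variety of finite
exponent to prime power exponents.
-/

namespace Pool.Agent.H63FB

open Subgroup

universe u

/-- In a locally nilpotent group of exponent `n` the law `[x ^ q, y ^ (n / q)] = 1` holds,
`q` the `p`-part of `n`. -/
lemma commute_parts {n : ℕ} (hn : 0 < n) {G : Type u} [Group G] (hG : LocNilp G)
    (hexp : ExpDvd n G) {p : ℕ} (hp : p.Prime) (x y : G) :
    Commute (x ^ (p ^ n.factorization p)) (y ^ (n / p ^ n.factorization p)) := by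
  classical
  obtain ⟨K, hK⟩ : ∃ K : Subgroup G, K = closure {x, y} := ⟨_, rfl⟩
  have hKfg : K.FG := ⟨{x, y}, by rw [hK]; simp⟩
  have hnil : Group.IsNilpotent K := hG K hKfg
  have hxK : x ∈ K := by rw [hK]; exact subset_closure (by simp)
  have hyK : y ∈ K := by rw [hK]; exact subset_closure (by simp)
  have h := commute_of_coprime (G := K) ((⟨x, hxK⟩ : K) ^ (p ^ n.factorization p))
    ((⟨y, hyK⟩ : K) ^ (n / p ^ n.factorization p)) (n / p ^ n.factorization p)
    (p ^ n.factorization p) (qm_coprime hn hp).symm
    (by rw [← pow_mul, qm_mul]; exact Subtype.ext (hexp x))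
    (by rw [← pow_mul, mul_comm, qm_mul]; exact Subtype.ext (hexp y))
  simpa using h.map K.subtype

/-- In a locally nilpotent group of exponent `n` the subgroup generated by the `n / q`-th powers
has exponent `q`. -/
lemma exp_powGen {n : ℕ} (hn : 0 < n) {G : Type u} [Group G] (hG : LocNilp G)
    (hexp : ExpDvd n G) {p : ℕ} (hp : p.Prime) :
    ExpDvd (p ^ n.factorization p) (PowGen G (n / p ^ n.factorization p)) := by
  rintro ⟨g, hg⟩
  apply Subtype.ext
  simp only [SubmonoidClass.mk_pow, OneMemClass.coe_one]
  unfold PowGen at hg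
  induction hg using closure_induction with
  | mem x hx =>
    obtain ⟨y, rfl⟩ := hx
    simp only
    rw [← pow_mul, mul_comm, qm_mul]
    exact hexp y
  | one => exact one_pow _
  | mul x y _ _ hx hy => exact pow_mul_eq_one hn hG hexp hp hx hy
  | inv x _ hx => rw [inv_pow, hx, inv_one]

/-- The `p`-part of the central quotient satisfies every law `w` such that `w` with `x_i`
replaced by its `n / q`-th power is a law of the group. -/
lemma sat_of_le_map {n : ℕ} (hn : 0 < n) {H : Type u} [Group H] (hexp : ExpDvd n H)
    (hcomm : ∀ p ∈ n.primeFactors, ∀ x y : H,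
      Commute (x ^ (p ^ n.factorization p)) (y ^ (n / p ^ n.factorization p)))
    {p : ℕ} (hp : p ∈ n.primeFactors) {L : Subgroup (H ⧸ center H)}
    (hL : L ≤ (PowGen H (n / p ^ n.factorization p)).map (QuotientGroup.mk' (center H)))
    {w : Word} (hw : Sat H (powSubst (n / p ^ n.factorization p) w)) : Sat L w := by
  intro f
  have hpp := Nat.prime_of_mem_primeFactors hp
  have hpn : p ∣ n := Nat.dvd_of_mem_primeFactors hp
  have hq1 : 1 < p ^ n.factorization p := by
    apply Nat.one_lt_pow _ hpp.one_lt
    have := (hpp.pow_dvd_iff_le_factorization hn.ne' (k := 1)).mp (by simpa using hpn)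
    omega
  obtain ⟨α, _, hα⟩ := Nat.exists_mul_mod_eq_one_of_coprime
    (n := n / p ^ n.factorization p) (k := p ^ n.factorization p) (qm_coprime hn hpp).symm hq1
  have hlift : ∀ i, ∃ k : H, k ∈ PowGen H (n / p ^ n.factorization p) ∧
      QuotientGroup.mk' (center H) k = (f i : H ⧸ center H) := fun i => hL (f i).2
  choose k hk hkf using hlift
  have hval : ∀ i, (f i : H ⧸ center H) =
      QuotientGroup.mk' (center H) ((k i ^ α) ^ (n / p ^ n.factorization p)) := by
    intro i
    have hq : (QuotientGroup.mk' (center H) (k i)) ^ (p ^ n.factorization p) = 1 := by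
      rw [← map_pow, ← MonoidHom.mem_ker, QuotientGroup.ker_mk']
      exact pow_mem_center hn hexp hcomm hp (hk i)
    rw [← pow_mul, mul_comm α, map_pow, ← hkf i,
      pow_eq_pow_mod (n / p ^ n.factorization p * α) hq, hα, pow_one]
  apply Subtype.ext
  have h1 : ((FreeGroup.lift f w : L) : H ⧸ center H) =
      FreeGroup.lift (fun i => ((f i : L) : H ⧸ center H)) w := map_lift L.subtype f w
  rw [h1]
  have h2 : (fun i => ((f i : L) : H ⧸ center H)) = fun i =>
      QuotientGroup.mk' (center H) ((k i ^ α) ^ (n / p ^ n.factorization p)) := funext hval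
  rw [h2, ← map_lift (QuotientGroup.mk' (center H)), ← lift_powSubst, hw]
  simp

theorem reduction (n : ℕ) (hn : 0 < n) (S : Finset Word)
    (hS : ∀ (G : Type u) (_ : Group G), InVar (S : Set Word) G → ExpDvd n G) :
    FinBased.{u} (fun G _ => InVar (S : Set Word) G ∧ LocNilp G) ↔
      ∀ p : ℕ, p.Prime → p ∣ n →
        FinBased.{u} (fun G _ => InVar (S : Set Word) G ∧ LocNilp G ∧
          ExpDvd (p ^ n.factorization p) G) := by
  classical
  constructor
  · rintro ⟨T, hT⟩ p _ _
    refine ⟨insert (FreeGroup.of 0 ^ (p ^ n.factorization p)) T, ?_⟩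
    intro G inst
    constructor
    · rintro ⟨h1, h2, h3⟩ w hw
      rw [Finset.coe_insert, Set.mem_insert_iff] at hw
      rcases hw with rfl | hw
      · exact (sat_pow_iff _).mpr h3
      · exact (hT G inst).mp ⟨h1, h2⟩ w hw
    · intro h
      have h1 := (hT G inst).mpr (fun w hw => h w (by
        rw [Finset.coe_insert]; exact Set.mem_insert_of_mem _ hw))
      refine ⟨h1.1, h1.2, (sat_pow_iff _).mp (h _ (by
        rw [Finset.coe_insert]; exact Set.mem_insert _ _))⟩
  · intro hP
    have hP' : ∀ p : ℕ, ∃ T : Finset Word, p ∈ n.primeFactors →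
        ∀ (G : Type u) (inst : Group G), (InVar (S : Set Word) G ∧ LocNilp G ∧
          ExpDvd (p ^ n.factorization p) G) ↔ InVar (T : Set Word) G := by
      intro p
      by_cases hp : p ∈ n.primeFactors
      · obtain ⟨T, hT⟩ := hP p (Nat.prime_of_mem_primeFactors hp)
          (Nat.dvd_of_mem_primeFactors hp)
        exact ⟨T, fun _ => hT⟩
      · exact ⟨∅, fun h => absurd h hp⟩
    choose T hT using hP'
    let B : Finset Word := S ∪ n.primeFactors.biUnion fun p =>
      insert (commWord (p ^ n.factorization p) (n / p ^ n.factorization p))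
        ((T p).image (powSubst (n / p ^ n.factorization p)))
    have hBS : ∀ w ∈ S, w ∈ B := fun w hw => Finset.mem_union_left _ hw
    have hBc : ∀ p ∈ n.primeFactors,
        commWord (p ^ n.factorization p) (n / p ^ n.factorization p) ∈ B := fun p hp =>
      Finset.mem_union_right _ (Finset.mem_biUnion.mpr ⟨p, hp, Finset.mem_insert_self _ _⟩)
    have hBT : ∀ p ∈ n.primeFactors, ∀ w ∈ T p, powSubst (n / p ^ n.factorization p) w ∈ B :=
      fun p hp w hw => Finset.mem_union_right _ (Finset.mem_biUnion.mpr
        ⟨p, hp, Finset.mem_insert_of_mem (Finset.mem_image_of_mem _ hw)⟩)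
    refine ⟨B, ?_⟩
    intro G inst
    constructor
    · rintro ⟨h1, h2⟩ w hw
      have hexp := hS G inst h1
      have hw' : w ∈ B := hw
      rcases Finset.mem_union.mp hw' with hw1 | hw1
      · exact h1 w hw1
      · obtain ⟨p, hp, hw2⟩ := Finset.mem_biUnion.mp hw1
        have hpp := Nat.prime_of_mem_primeFactors hp
        rcases Finset.mem_insert.mp hw2 with rfl | hw3
        · exact (sat_comm_iff _ _).mpr (commute_parts hn h2 hexp hpp)
        · obtain ⟨v, hv, rfl⟩ := Finset.mem_image.mp hw3
          intro f
          rw [lift_powSubst]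
          have hP2 : InVar (T p : Set Word) (PowGen G (n / p ^ n.factorization p)) := by
            apply (hT p hp _ _).mp
            exact ⟨fun w hw => sat_subgroup _ (h1 w hw), h2.subgroup _,
              exp_powGen hn h2 hexp hpp⟩
          have h3 := hP2 v hv (fun i => ⟨f i ^ (n / p ^ n.factorization p),
            subset_closure ⟨f i, rfl⟩⟩)
          have h4 := congrArg (PowGen G (n / p ^ n.factorization p)).subtype h3
          rw [map_lift, map_one] at h4
          exact h4
    · intro h
      have hV : InVar (S : Set Word) G := fun w hw => h w (hBS w hw)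
      refine ⟨hV, ?_⟩
      intro K hK
      have hKfg : Group.FG K := (Group.fg_iff_subgroup_fg K).mpr hK
      have hexpK : ExpDvd n K := fun g => Subtype.ext (hS G inst hV g)
      have hcommK : ∀ p ∈ n.primeFactors, ∀ x y : K,
          Commute (x ^ (p ^ n.factorization p)) (y ^ (n / p ^ n.factorization p)) := by
        intro p hp
        exact (sat_comm_iff _ _).mp (sat_subgroup K (h _ (hBc p hp)))
      apply nilpotent_of_parts hn hexpK hcommK
      intro p hp L hLfg hL
      have h5 : InVar (T p : Set Word) L := by
        intro w hw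
        exact sat_of_le_map hn hexpK hcommK hp hL (sat_subgroup K (h _ (hBT p hp w hw)))
      have h6 := ((hT p hp _ _).mpr h5).2.1
      have : Group.FG L := (Group.fg_iff_subgroup_fg L).mpr hLfg
      exact h6.of_fg

/-- Every variety of finite exponent `n` is a strong generalised Burnside variety, with constants
`1` and `n`. -/
lemma isSGB_of_exp (n : ℕ) (hn : 0 < n) (S : Set Word)
    (hS : ∀ (G : Type u) (_ : Group G), InVar S G → ExpDvd n G) : IsSGB.{u} 1 n S := by
  refine ⟨one_pos, hn, ?_⟩
  intro G _ h1 h2
  constructor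
  · refine ⟨⊥, inferInstance, ?_, ?_, ?_⟩
    · rw [eq_bot_iff]
      intro x _
      rw [Subgroup.mem_bot]
      exact Subsingleton.elim _ _
    · exact locNilp_of_injective (QuotientGroup.quotientBot (G := G)).toMonoidHom
        (QuotientGroup.quotientBot (G := G)).injective h2
    · intro g
      obtain ⟨g, rfl⟩ := QuotientGroup.mk'_surjective (⊥ : Subgroup G) g
      rw [← map_pow, hS G _ h1 g, map_one]
  · refine ⟨⊤, inferInstance, h2.subgroup ⊤, fun g => Subtype.ext (hS G _ h1 g), ?_⟩
    rw [eq_bot_iff]
    intro x _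
    rw [Subgroup.mem_bot]
    have : Subsingleton (G ⧸ (⊤ : Subgroup G)) := QuotientGroup.subsingleton_quotient_top
    exact Subsingleton.elim _ _

end Pool.Agent.H63FB
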