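import Pool.Agent.H63FB.Fit
import Pool.Agent.H63FB.Reduction

/-!
For a finitely based strong generalised Burnside variety with constants `c, e` the locally
nilpotent part is finitely based as soon as the part of exponent `e` is.
-/

namespace Pool.Agent.H63FB

open Subgroup
open scoped commutatorElement

universe u

lemma powGen_normal (G : Type u) [Group G] (e : ℕ) : (PowGen G e).Normal := by
  constructor
  intro x hx g
  have h1 : PowGen G e ≤ (PowGen G e).comap (MulAut.conj g).toMonoidHom := by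
    rw [PowGen, closure_le]
    rintro _ ⟨y, rfl⟩
    refine subset_closure ⟨g * y * g⁻¹, ?_⟩
    simp [conj_pow]
  exact h1 hx

lemma powGen_map {G H : Type u} [Group G] [Group H] (φ : G →* H) (e : ℕ) :
    (PowGen G e).map φ ≤ PowGen H e := by
  rw [PowGen, MonoidHom.map_closure, closure_le]
  rintro _ ⟨_, ⟨y, rfl⟩, rfl⟩
  exact subset_closure ⟨φ y, by simp⟩

lemma top_lcs_bot_iff {G : Type u} [Group G] (N : Subgroup G) (c : ℕ) :
    (⊤ : Subgroup N).lowerCentralSeries c = ⊥ ↔ N.lowerCentralSeries c = ⊥ := by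
  rw [← map_subtype_inj, Subgroup.map_bot, top_subtype_lowerCentralSeries]

lemma powGen_lcs {G : Type u} [Group G] {c e : ℕ} (h : InNB c e G) :
    (PowGen G e).lowerCentralSeries c = ⊥ := by
  obtain ⟨N, hN, h1, _, h3⟩ := h
  rw [top_lcs_bot_iff] at h1
  have hle : PowGen G e ≤ N := by
    rw [PowGen, closure_le]
    rintro _ ⟨x, rfl⟩
    have := h3 (QuotientGroup.mk' N x)
    rw [← map_pow, ← MonoidHom.mem_ker, QuotientGroup.ker_mk'] at this
    exact this
  rw [eq_bot_iff, ← h1]
  exact Subgroup.lowerCentralSeries_mono c hle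

lemma lcs_exp {G : Type u} [Group G] {c e : ℕ} (h : InBN c e G) :
    ∀ g ∈ (⊤ : Subgroup G).lowerCentralSeries c, g ^ e = 1 := by
  obtain ⟨N, hN, _, h2, h3⟩ := h
  intro g hg
  have h4 : QuotientGroup.mk' N g ∈ (⊤ : Subgroup (G ⧸ N)).lowerCentralSeries c := by
    rw [← lcs_map_surj (QuotientGroup.mk' N) (QuotientGroup.mk'_surjective N)]
    exact ⟨g, hg, rfl⟩
  rw [h3, Subgroup.mem_bot, ← MonoidHom.mem_ker, QuotientGroup.ker_mk'] at h4
  exact congrArg Subtype.val (h2 ⟨g, h4⟩)

lemma LocNilp.of_surjective {G H : Type u} [Group G] [Group H] (φ : G →* H)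
    (hφ : Function.Surjective φ) (h : LocNilp G) : LocNilp H := by
  classical
  rintro K ⟨s, rfl⟩
  choose g hg using hφ
  have h1 := h (closure ((s.image g : Finset G) : Set G)) ⟨_, rfl⟩
  have h2 : (closure ((s.image g : Finset G) : Set G)).map φ = closure (s : Set H) := by
    rw [MonoidHom.map_closure]
    congr 1
    rw [Finset.coe_image, Set.image_image]
    simp [hg]
  rw [← h2]
  exact Group.nilpotent_of_surjective (φ.subgroupMap _) (φ.subgroupMap_surjective _)

lemma locNilp_of_nilpotent {G : Type u} [Group G] (h : Group.IsNilpotent G) : LocNilp G :=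
  fun K _ => Subgroup.isNilpotent K

lemma sat_pi {ι : Type} {K : ι → Type u} [∀ i, Group (K i)] {w : Word} (h : ∀ i, Sat (K i) w) :
    Sat (∀ i, K i) w := by
  intro f
  funext i
  have h1 := map_lift (Pi.evalMonoidHom K i) f w
  exact h1.trans (h i _)

/-- the quotient by the `e`-th powers of a locally nilpotent group in the variety. -/
lemma quot_sat {S T : Set Word} {e : ℕ}
    (hT : ∀ (G : Type u) (_ : Group G), (InVar S G ∧ LocNilp G ∧ ExpDvd e G) ↔ InVar T G)
    {G : Type u} [Group G] (h1 : InVar S G) (h2 : LocNilp G) {f : ℕ → G} {w : Word}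
    (hw : w ∈ T) : FreeGroup.lift f w ∈ PowGen G e := by
  have := powGen_normal G e
  have h3 : InVar T (G ⧸ PowGen G e) := by
    apply (hT _ _).mp
    refine ⟨fun w hw => sat_of_surjective (QuotientGroup.mk' (PowGen G e))
      (QuotientGroup.mk'_surjective _) (h1 w hw), h2.of_surjective
      (QuotientGroup.mk' (PowGen G e)) (QuotientGroup.mk'_surjective _), ?_⟩
    intro g
    obtain ⟨g, rfl⟩ := QuotientGroup.mk'_surjective (PowGen G e) g
    rw [← map_pow, ← MonoidHom.mem_ker, QuotientGroup.ker_mk']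
    exact subset_closure ⟨g, rfl⟩
  have h4 := h3 w hw (fun i => QuotientGroup.mk' (PowGen G e) (f i))
  rw [← map_lift, ← MonoidHom.mem_ker, QuotientGroup.ker_mk'] at h4
  exact h4

/-- The nilpotency class of the `k`-generator nilpotent groups of the variety is bounded. -/
lemma bound {S T : Set Word} {c e : ℕ} (he : 0 < e)
    (hSGB : ∀ (G : Type u) (_ : Group G), InVar S G → LocNilp G → InNB c e G ∧ InBN c e G)
    (hT : ∀ (G : Type u) (_ : Group G), (InVar S G ∧ LocNilp G ∧ ExpDvd e G) ↔ InVar T G)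
    (k : ℕ) : ∃ d : ℕ, ∀ (K : Type u) (_ : Group K), InVar S K → LocNilp K → ∀ f : ℕ → K,
      closure (f '' {i | i < k}) = ⊤ → (⊤ : Subgroup K).lowerCentralSeries d = ⊥ := by
  classical
  by_contra hcon
  push Not at hcon
  choose K inst hV hL f hf hne using hcon
  let P : Type u := ∀ d, K d
  let x : ℕ → P := fun i d => f d i
  obtain ⟨G, hG⟩ : ∃ G : Subgroup P, G = closure (x '' {i | i < k}) := ⟨_, rfl⟩
  let π : ∀ d, G →* K d := fun d => (Pi.evalMonoidHom K d).comp G.subtype
  have hπ : ∀ d, Function.Surjective (π d) := by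
    intro d
    rw [← MonoidHom.range_eq_top]
    have h1 : (π d).range = G.map (Pi.evalMonoidHom K d) := by
      rw [MonoidHom.range_comp, Subgroup.range_subtype]
    rw [h1, hG, MonoidHom.map_closure, ← hf d]
    congr 1
    rw [Set.image_image]
    rfl
  have hGfg : Group.FG G := by
    apply (Group.fg_iff_subgroup_fg G).mpr
    refine ⟨(Finset.range k).image x, ?_⟩
    rw [hG, Finset.coe_image]
    congr 2
    ext i
    simp
  have hKfg : ∀ d, Group.FG (K d) := fun d => Group.fg_of_surjective (hπ d)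
  have hKnil : ∀ d, Group.IsNilpotent (K d) := fun d => (hL d).of_fg
  have hn : ∀ d, (PowGen (K d) e).Normal := fun d => powGen_normal _ _
  let φ : G →* ∀ d, K d ⧸ PowGen (K d) e :=
    MonoidHom.mk' (fun g d => QuotientGroup.mk' (PowGen (K d) e) (π d g)) (by
      intro a b
      funext d
      simp)
  have hQT : InVar T (∀ d, K d ⧸ PowGen (K d) e) := by
    intro w hw
    apply sat_pi
    intro d f'
    choose g hg using fun i => QuotientGroup.mk'_surjective (PowGen (K d) e) (f' i)
    have h1 : f' = fun i => QuotientGroup.mk' (PowGen (K d) e) (g i) :=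
      funext fun i => (hg i).symm
    rw [h1, ← map_lift, ← MonoidHom.mem_ker, QuotientGroup.ker_mk']
    exact quot_sat hT (hV d) (hL d) hw
  obtain ⟨_, hQL, hQe⟩ := (hT _ _).mpr hQT
  have hrfg : Group.FG φ.range := Group.fg_of_surjective φ.rangeRestrict_surjective
  have hrnil : Group.IsNilpotent φ.range :=
    hQL φ.range ((Group.fg_iff_subgroup_fg _).mp hrfg)
  have hrfin : Finite φ.range :=
    finite_of_fg_nilpotent he hrfg (fun g => Subtype.ext (hQe g))
  obtain ⟨M, hM⟩ : ∃ M : Subgroup G, M = φ.ker := ⟨_, rfl⟩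
  have hMmem : ∀ g ∈ M, ∀ d, π d g ∈ PowGen (K d) e := by
    intro g hg d
    rw [hM, MonoidHom.mem_ker] at hg
    have h1 := congrFun hg d
    rw [← QuotientGroup.ker_mk' (PowGen (K d) e), MonoidHom.mem_ker]
    exact h1
  have hMfi : M.FiniteIndex := by
    rw [hM]
    exact finiteIndex_ker φ
  have hMfg : Group.FG M := Subgroup.fg_of_index_ne_zero M
  have hMl : M.lowerCentralSeries c = ⊥ := by
    rw [eq_bot_iff]
    intro g hg
    rw [Subgroup.mem_bot]
    apply Subtype.ext
    funext d
    have h1 : π d g ∈ (PowGen (K d) e).lowerCentralSeries c := by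
      have h2 : (M.lowerCentralSeries c).map (π d) ≤ (PowGen (K d) e).lowerCentralSeries c := by
        rw [Subgroup.map_lowerCentralSeries]
        apply Subgroup.lowerCentralSeries_mono
        rintro _ ⟨a, ha, rfl⟩
        exact hMmem a ha d
      exact h2 ⟨g, hg, rfl⟩
    rw [powGen_lcs (hSGB _ _ (hV d) (hL d)).1, Subgroup.mem_bot] at h1
    exact h1
  have hMl' : (⊤ : Subgroup M).lowerCentralSeries c = ⊥ := (top_lcs_bot_iff M c).mpr hMl
  have hMnil : Group.IsNilpotent M := (Subgroup.isNilpotent_iff_lowerCentralSeries M).mpr ⟨c, hMl⟩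
  have hMall : AllFG M := allFG_of_lcs c hMfg hMl'
  obtain ⟨L, hLdef⟩ : ∃ L : Subgroup G, L = (⊤ : Subgroup G).lowerCentralSeries c := ⟨_, rfl⟩
  have hLe : ∀ g ∈ L, g ^ e = 1 := by
    intro g hg
    apply Subtype.ext
    funext d
    have h1 : π d g ∈ (⊤ : Subgroup (K d)).lowerCentralSeries c := by
      rw [← lcs_map_surj (π d) (hπ d)]
      rw [hLdef] at hg
      exact ⟨g, hg, rfl⟩
    exact lcs_exp (hSGB _ _ (hV d) (hL d)).2 _ h1
  have hfin1 : Finite (L.subgroupOf M) := by
    have h1 : Group.FG (L.subgroupOf M) := (Group.fg_iff_subgroup_fg _).mpr (hMall _)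
    have h2 : Group.IsNilpotent (L.subgroupOf M) := Subgroup.isNilpotent _
    refine finite_of_fg_nilpotent he h1 ?_
    rintro ⟨⟨g, hgM⟩, hgL⟩
    have h3 : g ^ e = 1 := hLe g hgL
    exact Subtype.ext (Subtype.ext h3)
  have hfin2 : Finite (M.subgroupOf L) := by
    let ψ : M.subgroupOf L → L.subgroupOf M := fun z => ⟨⟨(z.1 : G), z.2⟩, z.1.2⟩
    apply Finite.of_injective ψ
    intro a b hab
    have h1 : ((a.1 : L) : G) = ((b.1 : L) : G) :=
      congrArg (fun z : L.subgroupOf M => ((z.1 : M) : G)) hab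
    exact Subtype.ext (Subtype.ext h1)
  have hLfin : Finite L := by
    have h1 : (M.subgroupOf L).FiniteIndex := inferInstance
    have h2 : Finite (L ⧸ M.subgroupOf L) := inferInstance
    exact Finite.of_equiv _ (Subgroup.groupEquivQuotientProdSubgroup (s := M.subgroupOf L)).symm
  have hres : ∀ g : L, ∃ j : ℕ, (g : G) ≠ 1 → (g : G) ∉ (⊤ : Subgroup G).lowerCentralSeries j := by
    intro g
    by_cases hg : (g : G) = 1
    · exact ⟨0, fun h => absurd hg h⟩
    · obtain ⟨d, hd⟩ : ∃ d, π d g ≠ 1 := by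
        by_contra hall
        push Not at hall
        exact hg (Subtype.ext (funext hall))
      obtain ⟨j, hj⟩ := Subgroup.nilpotent_iff_lowerCentralSeries.mp (hKnil d)
      refine ⟨j, fun _ hmem => hd ?_⟩
      have h1 : π d g ∈ (⊤ : Subgroup (K d)).lowerCentralSeries j := by
        rw [← lcs_map_surj (π d) (hπ d)]
        exact ⟨g, hmem, rfl⟩
      rw [hj, Subgroup.mem_bot] at h1
      exact h1
  choose j hj using hres
  have := Fintype.ofFinite L
  obtain ⟨J, hJ⟩ : ∃ J : ℕ, J = max c (Finset.univ.sup j) := ⟨_, rfl⟩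
  have hbot : (⊤ : Subgroup G).lowerCentralSeries J = ⊥ := by
    rw [eq_bot_iff]
    intro g hg
    rw [Subgroup.mem_bot]
    by_contra hg1
    have h1 : g ∈ L := by
      rw [hLdef]
      exact (⊤ : Subgroup G).lowerCentralSeries_antitone (by rw [hJ]; exact le_max_left _ _) hg
    have h2 := hj ⟨g, h1⟩ hg1
    apply h2
    refine (⊤ : Subgroup G).lowerCentralSeries_antitone ?_ hg
    rw [hJ]
    exact le_max_of_le_right (Finset.le_sup (f := j) (Finset.mem_univ _))
  apply hne J
  rw [← lcs_map_surj (π J) (hπ J), hbot, Subgroup.map_bot]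

end Pool.Agent.H63FB
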