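import Pool.Agent.H63FB.Noeth

/-!
Fitting's theorem, and: a nilpotent-by-(finite nilpotent) group with an Engel law is nilpotent.
-/

namespace Pool.Agent.H63FB

open Subgroup
open scoped commutatorElement

universe u

lemma comm_mem_iff {G : Type u} [Group G] (N : Subgroup G) [N.Normal] (x g : G) :
    ⁅x, g⁆ ∈ N ↔ QuotientGroup.mk' N x * QuotientGroup.mk' N g =
      QuotientGroup.mk' N g * QuotientGroup.mk' N x := by
  have h0 : ⁅x, g⁆ ∈ N ↔ QuotientGroup.mk' N ⁅x, g⁆ = 1 := by
    rw [← MonoidHom.mem_ker, QuotientGroup.ker_mk']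
  rw [h0, commutatorElement_def]
  simp only [map_mul, map_inv]
  rw [mul_inv_eq_one, mul_inv_eq_iff_eq_mul]

/-- Modulo a normal subgroup, commuting with two subgroups which generate everything. -/
lemma comm_mem_of_sup {G : Type u} [Group G] {H K N : Subgroup G} [N.Normal] (hHK : H ⊔ K = ⊤)
    {x : G} (hH : ∀ h ∈ H, ⁅x, h⁆ ∈ N) (hK : ∀ k ∈ K, ⁅x, k⁆ ∈ N) (g : G) : ⁅x, g⁆ ∈ N := by
  have key : ∀ g : G, ⁅x, g⁆ ∈ N ↔
      QuotientGroup.mk' N g ∈ centralizer {QuotientGroup.mk' N x} := by
    intro g
    rw [mem_centralizer_singleton_iff, comm_mem_iff]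
    exact eq_comm
  have h1 : (⊤ : Subgroup G) ≤
      (centralizer {QuotientGroup.mk' N x}).comap (QuotientGroup.mk' N) := by
    rw [← hHK]
    exact sup_le (fun h hh => (key h).mp (hH h hh)) (fun k hk => (key k).mp (hK k hk))
  exact (key g).mpr (h1 (mem_top g))

/-- The series used for Fitting's theorem. -/
def fitA {G : Type u} [Group G] (H : Subgroup G) : ℕ → Subgroup G
  | 0 => ⊤
  | i + 1 => H.lowerCentralSeries i

lemma fitA_normal {G : Type u} [Group G] (H : Subgroup G) [H.Normal] (i : ℕ) :
    (fitA H i).Normal := by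
  cases i with
  | zero => exact inferInstanceAs (⊤ : Subgroup G).Normal
  | succ i => exact inferInstanceAs (H.lowerCentralSeries i).Normal

lemma fitA_comm {G : Type u} [Group G] (H : Subgroup G) [hn : H.Normal] {i : ℕ} {x h : G}
    (hx : x ∈ fitA H i) (hh : h ∈ H) : ⁅x, h⁆ ∈ fitA H (i + 1) := by
  cases i with
  | zero =>
    change ⁅x, h⁆ ∈ H.lowerCentralSeries 0
    rw [Subgroup.lowerCentralSeries_zero, commutatorElement_def]
    have h1 := hn.conj_mem h hh x
    exact H.mul_mem h1 (H.inv_mem hh)
  | succ i =>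
    change ⁅x, h⁆ ∈ H.lowerCentralSeries (i + 1)
    rw [Subgroup.lowerCentralSeries_succ]
    exact commutator_mem_commutator hx hh

lemma comm_mem_normal {G : Type u} [Group G] {N : Subgroup G} (hN : N.Normal) {x : G}
    (hx : x ∈ N) (g : G) : ⁅x, g⁆ ∈ N := by
  rw [commutatorElement_def]
  have h1 := hN.conj_mem x⁻¹ (N.inv_mem hx) g
  have h2 : x * g * x⁻¹ * g⁻¹ = x * (g * x⁻¹ * g⁻¹) := by group
  rw [h2]
  exact N.mul_mem hx h1

/-- Fitting's theorem. -/
lemma fitting {G : Type u} [Group G] (H K : Subgroup G) [H.Normal] [K.Normal]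
    (hHK : H ⊔ K = ⊤) (hH : Group.IsNilpotent H) (hK : Group.IsNilpotent K) :
    Group.IsNilpotent G := by
  obtain ⟨h, hh⟩ := (Subgroup.isNilpotent_iff_lowerCentralSeries H).mp hH
  obtain ⟨k, hk⟩ := (Subgroup.isNilpotent_iff_lowerCentralSeries K).mp hK
  let D : ℕ → Subgroup G := fun n => ⨆ q : {q : ℕ × ℕ // q.1 + q.2 = n + 1},
    fitA H q.1.1 ⊓ fitA K q.1.2
  have hle : ∀ n i j, i + j = n + 1 → fitA H i ⊓ fitA K j ≤ D n := fun n i j hij =>
    le_iSup (fun q : {q : ℕ × ℕ // q.1 + q.2 = n + 1} => fitA H q.1.1 ⊓ fitA K q.1.2)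
      ⟨(i, j), hij⟩
  have hDn : ∀ n, (D n).Normal := by
    intro n
    constructor
    intro x hx g
    have hD2 : D n ≤ (D n).comap (MulAut.conj g).toMonoidHom := by
      apply iSup_le
      rintro ⟨⟨i, j⟩, hij⟩ y ⟨hy1, hy2⟩
      apply hle n i j hij
      exact ⟨(fitA_normal H i).conj_mem y hy1 g, (fitA_normal K j).conj_mem y hy2 g⟩
    exact hD2 hx
  rw [Subgroup.nilpotent_iff_finite_descending_central_series]
  refine ⟨h + k + 1, D, ⟨?_, ?_⟩, ?_⟩
  · rw [eq_top_iff, ← hHK]
    apply sup_le
    · intro x hx
      exact hle 0 1 0 rfl ⟨hx, mem_top x⟩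
    · intro x hx
      exact hle 0 0 1 rfl ⟨mem_top x, hx⟩
  · intro x n hx
    have := hDn (n + 1)
    have hsub : D n ≤ (center (G ⧸ D (n + 1))).comap (QuotientGroup.mk' (D (n + 1))) := by
      apply iSup_le
      rintro ⟨⟨i, j⟩, hij⟩ y ⟨hy1, hy2⟩
      have h1 : ∀ g : G, ⁅y, g⁆ ∈ D (n + 1) := by
        apply comm_mem_of_sup hHK
        · intro a ha
          exact hle (n + 1) (i + 1) j (by simp only at hij; omega)
            ⟨fitA_comm H hy1 ha, comm_mem_normal (fitA_normal K j) hy2 a⟩
        · intro a ha
          exact hle (n + 1) i (j + 1) (by simp only at hij; omega)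
            ⟨comm_mem_normal (fitA_normal H i) hy1 a, fitA_comm K hy2 ha⟩
      rw [mem_comap, mem_center_iff]
      intro g
      obtain ⟨g, rfl⟩ := QuotientGroup.mk'_surjective (D (n + 1)) g
      exact ((comm_mem_iff _ _ _).mp (h1 g)).symm
    intro g
    have h3 := hsub hx
    rw [mem_comap, mem_center_iff] at h3
    exact (comm_mem_iff _ _ _).mpr (h3 (QuotientGroup.mk' (D (n + 1)) g)).symm
  · rw [eq_bot_iff]
    apply iSup_le
    rintro ⟨⟨i, j⟩, hij⟩ y ⟨hy1, hy2⟩
    simp only at hij
    by_cases hi : h + 1 ≤ i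
    · obtain ⟨i', rfl⟩ : ∃ i', i = i' + 1 := ⟨i - 1, by omega⟩
      have h1 : H.lowerCentralSeries i' ≤ H.lowerCentralSeries h :=
        H.lowerCentralSeries_antitone (by omega)
      rw [hh] at h1
      exact h1 hy1
    · obtain ⟨j', rfl⟩ : ∃ j', j = j' + 1 := ⟨j - 1, by omega⟩
      have h1 : K.lowerCentralSeries j' ≤ K.lowerCentralSeries k :=
        K.lowerCentralSeries_antitone (by omega)
      rw [hk] at h1
      exact h1 hy2

/-- Iterated commutators `[a, y, ..., y]`. -/
def eng {G : Type u} [Group G] (y : G) : ℕ → G → G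
  | 0, a => a
  | j + 1, a => eng y j ⁅a, y⁆

lemma eng_succ {G : Type u} [Group G] (y : G) (j : ℕ) : ∀ a : G,
    eng y (j + 1) a = ⁅eng y j a, y⁆ := by
  induction j with
  | zero => intro a; rfl
  | succ j ih =>
    intro a
    change eng y (j + 1) ⁅a, y⁆ = ⁅eng y j ⁅a, y⁆, y⁆
    exact ih _

lemma eng_eq_sc {G : Type u} [Group G] (a y : G) (j : ℕ) :
    eng y j a = sc (fun i => if i = 0 then a else y) j := by
  induction j with
  | zero => rfl
  | succ j ih =>
    rw [eng_succ, ih]
    simp only [sc]
    rw [commutatorElement_def]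
    simp

lemma map_eng {G H : Type u} [Group G] [Group H] (φ : G →* H) (y : G) (j : ℕ) : ∀ a : G,
    φ (eng y j a) = eng (φ y) j (φ a) := by
  induction j with
  | zero => intro a; rfl
  | succ j ih =>
    intro a
    simp only [eng]
    rw [ih]
    congr 1
    simp only [commutatorElement_def, map_mul, map_inv]

/-- The cyclic case. -/
lemma nilpotent_cyclic {G : Type u} [Group G] {n : ℕ} (heng : ∀ a y : G, eng y n a = 1)
    (N : Subgroup G) [hNn : N.Normal] (hN : Group.IsNilpotent N) (y : G)
    (hy : N ⊔ zpowers y = ⊤) : Group.IsNilpotent G := by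
  obtain ⟨c, hc⟩ := (Subgroup.isNilpotent_iff_lowerCentralSeries N).mp hN
  have hstep : ∀ i m, N.lowerCentralSeries (i + 1) ≤ Subgroup.upperCentralSeries G m →
      N.lowerCentralSeries i ≤ Subgroup.upperCentralSeries G (m + n) := by
    intro i m hm
    have hsub : ∀ j, ∀ a ∈ N.lowerCentralSeries i, eng y j a ∈ Subgroup.upperCentralSeries G m →
        a ∈ Subgroup.upperCentralSeries G (m + j) := by
      intro j
      induction j with
      | zero => intro a _ h; exact h
      | succ j ih =>
        intro a ha h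
        have hln : (N.lowerCentralSeries i).Normal := inferInstance
        have h1 : ⁅a, y⁆ ∈ Subgroup.upperCentralSeries G (m + j) :=
          ih _ (comm_mem_normal hln ha y) h
        change a ∈ Subgroup.upperCentralSeries G (m + j + 1)
        rw [Subgroup.mem_upperCentralSeries_succ_iff]
        apply comm_mem_of_sup hy
        · intro b hb
          have h2 : ⁅a, b⁆ ∈ N.lowerCentralSeries (i + 1) := by
            rw [Subgroup.lowerCentralSeries_succ]
            exact commutator_mem_commutator ha hb
          exact Subgroup.upperCentralSeries_mono G (by omega) (hm h2)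
        · intro z hz
          -- powers of `y`
          have hle : zpowers y ≤ (centralizer
              {QuotientGroup.mk' (Subgroup.upperCentralSeries G (m + j)) a}).comap
              (QuotientGroup.mk' (Subgroup.upperCentralSeries G (m + j))) := by
            rw [zpowers_le, mem_comap, mem_centralizer_singleton_iff]
            exact ((comm_mem_iff _ _ _).mp h1).symm
          have h3 := hle hz
          rw [mem_comap, mem_centralizer_singleton_iff] at h3
          exact (comm_mem_iff _ _ _).mpr h3.symm
    intro a ha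
    apply hsub n a ha
    rw [heng a y]
    exact one_mem _
  have hall : ∀ i ≤ c, N.lowerCentralSeries (c - i) ≤ Subgroup.upperCentralSeries G (i * n) := by
    intro i
    induction i with
    | zero =>
      intro _
      rw [Nat.sub_zero, hc]
      exact bot_le
    | succ i ih =>
      intro hi
      have h1 := ih (by omega)
      have h2 : c - i = (c - (i + 1)) + 1 := by omega
      rw [h2] at h1
      have h3 := hstep _ _ h1
      have h4 : (i + 1) * n = i * n + n := by ring
      rw [h4]
      exact h3
  have hN0 : N ≤ Subgroup.upperCentralSeries G (c * n) := by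
    have := hall c le_rfl
    simpa using this
  refine ⟨c * n + 1, ?_⟩
  rw [eq_top_iff]
  intro g _
  rw [Subgroup.mem_upperCentralSeries_succ_iff]
  -- the quotient is generated by the image of `y`
  have hQ : ∀ z : G ⧸ Subgroup.upperCentralSeries G (c * n),
      z ∈ zpowers (QuotientGroup.mk' (Subgroup.upperCentralSeries G (c * n)) y) := by
    intro z
    obtain ⟨z, rfl⟩ := QuotientGroup.mk'_surjective (Subgroup.upperCentralSeries G (c * n)) z
    have h1 : (⊤ : Subgroup G) ≤ (zpowers (QuotientGroup.mk' (Subgroup.upperCentralSeries G (c * n))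
        y)).comap (QuotientGroup.mk' (Subgroup.upperCentralSeries G (c * n))) := by
      rw [← hy]
      apply sup_le
      · intro b hb
        rw [mem_comap]
        have : QuotientGroup.mk' (Subgroup.upperCentralSeries G (c * n)) b = 1 := by
          rw [← MonoidHom.mem_ker, QuotientGroup.ker_mk']
          exact hN0 hb
        rw [this]
        exact one_mem _
      · rw [zpowers_le]
        exact mem_zpowers _
    exact h1 (mem_top z)
  intro z
  rw [comm_mem_iff]
  obtain ⟨p, hp⟩ := mem_zpowers_iff.mp (hQ (QuotientGroup.mk' _ g))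
  obtain ⟨q, hq⟩ := mem_zpowers_iff.mp (hQ (QuotientGroup.mk' _ z))
  rw [← hp, ← hq, ← zpow_add, ← zpow_add, add_comm]

/-- A nilpotent-by-(finite nilpotent) group satisfying an Engel law is nilpotent. -/
lemma nilpotent_of_engel (n : ℕ) (m : ℕ) : ∀ (G Q : Type u) [Group G] [Group Q] (φ : G →* Q),
    Finite Q → Group.IsNilpotent Q → Nat.card Q = m → Group.IsNilpotent φ.ker →
    (∀ a y : G, eng y n a = 1) → Group.IsNilpotent G := by
  induction m using Nat.strong_induction_on with
  | _ m ih =>
  intro G Q _ _ φ hfin hQ hcard hker heng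
  by_cases hsurj : Function.Surjective φ
  · by_cases hcyc : ∃ y : Q, zpowers y = ⊤
    · obtain ⟨y, hy⟩ := hcyc
      obtain ⟨g, rfl⟩ := hsurj y
      apply nilpotent_cyclic heng φ.ker hker g
      rw [eq_top_iff]
      intro x _
      have h1 : φ x ∈ zpowers (φ g) := by rw [hy]; exact mem_top _
      obtain ⟨k, hk⟩ := mem_zpowers_iff.mp h1
      have h2 : x = (x * (g ^ k)⁻¹) * g ^ k := by group
      rw [h2]
      apply Subgroup.mul_mem_sup
      · rw [MonoidHom.mem_ker, map_mul, map_inv, map_zpow, hk]
        group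
      · exact ⟨k, rfl⟩
    · push Not at hcyc
      obtain ⟨M1, hM1, _⟩ := (eq_top_or_exists_le_coatom (⊥ : Subgroup Q)).resolve_left (by
        intro hbot
        apply hcyc 1
        rw [zpowers_one_eq_bot]
        exact hbot)
      obtain ⟨y, hy⟩ : ∃ y, y ∉ M1 := by
        by_contra hcon
        push Not at hcon
        exact hM1.1 (eq_top_iff.mpr fun x _ => hcon x)
      obtain ⟨M2, hM2, hyM2⟩ := (eq_top_or_exists_le_coatom (zpowers y)).resolve_left (hcyc y)
      have hsup : M1 ⊔ M2 = ⊤ := by
        apply hM1.2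
        refine lt_of_le_of_ne le_sup_left ?_
        intro heq
        apply hy
        rw [heq]
        exact (le_sup_right : M2 ≤ M1 ⊔ M2) (hyM2 (mem_zpowers y))
      have hnorm : ∀ M : Subgroup Q, IsCoatom M → M.Normal :=
        (Group.isNilpotent_of_finite_tfae (G := Q)).out 0 2 rfl rfl |>.mp hQ
      have hM1n := hnorm M1 hM1
      have hM2n := hnorm M2 hM2
      have hnil : ∀ M : Subgroup Q, IsCoatom M → Group.IsNilpotent (M.comap φ) := by
        intro M hM
        have hlt : Nat.card M < m := by
          rw [← hcard]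
          have h1 : Nat.card M ∣ Nat.card Q := Subgroup.card_subgroup_dvd_card M
          refine lt_of_le_of_ne (Nat.le_of_dvd Nat.card_pos h1) ?_
          intro heq
          exact hM.1 (Subgroup.eq_top_of_card_eq M heq)
        refine ih (Nat.card M) hlt (M.comap φ) M (φ.subgroupComap M) inferInstance
          (Subgroup.isNilpotent M) rfl ?_ ?_
        · -- the kernel embeds in the kernel of φ
          let ψ : (φ.subgroupComap M).ker →* φ.ker :=
            { toFun := fun x => ⟨(x.1 : G), by
                have h1 := x.2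
                rw [MonoidHom.mem_ker] at h1 ⊢
                exact congrArg Subtype.val h1⟩
              map_one' := rfl
              map_mul' := fun _ _ => rfl }
          have hψ : Function.Injective ψ := by
            intro a b hab
            have h1 : ((a.1 : (M.comap φ)) : G) = ((b.1 : (M.comap φ)) : G) :=
              congrArg (fun z : φ.ker => (z : G)) hab
            exact Subtype.ext (Subtype.ext h1)
          have h2 : Group.IsNilpotent ψ.range := Subgroup.isNilpotent ψ.range
          exact Group.nilpotent_of_mulEquiv (MonoidHom.ofInjective hψ).symm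
        · intro a y
          apply Subtype.ext
          have h1 := map_eng (M.comap φ).subtype y n a
          have h2 := heng (a : G) (y : G)
          exact h1.trans h2
      have hsup2 : M1.comap φ ⊔ M2.comap φ = ⊤ := by
        rw [Subgroup.comap_sup_eq φ M1 M2 hsurj, hsup]
        rfl
      exact fitting (M1.comap φ) (M2.comap φ) hsup2 (hnil M1 hM1) (hnil M2 hM2)
  · -- replace `Q` by the range
    have hlt : Nat.card φ.range < m := by
      rw [← hcard]
      have h1 : Nat.card φ.range ∣ Nat.card Q := Subgroup.card_subgroup_dvd_card _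
      refine lt_of_le_of_ne (Nat.le_of_dvd Nat.card_pos h1) ?_
      intro heq
      exact hsurj (MonoidHom.range_eq_top.mp (Subgroup.eq_top_of_card_eq _ heq))
    refine ih (Nat.card φ.range) hlt G φ.range φ.rangeRestrict inferInstance
      (Subgroup.isNilpotent φ.range) rfl ?_ heng
    rw [MonoidHom.ker_rangeRestrict]
    exact hker

end Pool.Agent.H63FB
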