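import Pool.Agent.H63FB.Base

/-!
Facts on nilpotent groups: elements of coprime orders commute, finitely generated nilpotent
groups of finite exponent are finite, and in a locally nilpotent group of exponent `n` the
elements whose order divides the `p`-part of `n` are closed under products.
-/

namespace Pool.Agent.H63FB

open Subgroup

universe u

/-- In a nilpotent group elements of coprime orders commute. -/
lemma commute_of_coprime {G : Type u} [Group G] [Group.IsNilpotent G] :
    ∀ (a b : G) (r s : ℕ), Nat.Coprime r s → a ^ r = 1 → b ^ s = 1 → Commute a b := by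
  refine Group.nilpotent_center_quotient_ind
    (P := fun G _ _ => ∀ (a b : G) (r s : ℕ), Nat.Coprime r s → a ^ r = 1 → b ^ s = 1 →
      Commute a b) G ?_ ?_
  · intro G _ _ a b r s _ _ _
    exact Subsingleton.elim _ _
  · intro G _ _ ih a b r s hrs ha hb
    have h1 := ih (QuotientGroup.mk' (center G) a) (QuotientGroup.mk' (center G) b) r s hrs
      (by rw [← map_pow, ha, map_one]) (by rw [← map_pow, hb, map_one])
    have hc : a * b * a⁻¹ * b⁻¹ ∈ center G := by
      rw [← QuotientGroup.ker_mk' (center G), MonoidHom.mem_ker]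
      simp only [map_mul, map_inv]
      rw [h1.eq]
      group
    obtain ⟨c, hcdef⟩ : ∃ c, c = a * b * a⁻¹ * b⁻¹ := ⟨_, rfl⟩
    rw [← hcdef] at hc
    have hcc : ∀ g : G, Commute c g := fun g => ((mem_center_iff.mp hc) g).symm
    have h2 : a * b * a⁻¹ = c * b := by rw [hcdef]; group
    have h3 : b * a⁻¹ * b⁻¹ = a⁻¹ * c := by rw [hcdef]; group
    have hcs : c ^ s = 1 := by
      have h4 : (a * b * a⁻¹) ^ s = (c * b) ^ s := by rw [h2]
      rw [conj_pow, hb, (hcc b).mul_pow, hb] at h4
      simpa using h4.symm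
    have hcr : c ^ r = 1 := by
      have h4 : (b * a⁻¹ * b⁻¹) ^ r = (a⁻¹ * c) ^ r := by rw [h3]
      rw [conj_pow, (hcc a⁻¹).symm.mul_pow, inv_pow, ha] at h4
      simpa using h4.symm
    have hc1 : c = 1 := by
      have h5 : orderOf c ∣ 1 := by
        rw [← hrs.gcd_eq_one]
        exact Nat.dvd_gcd (orderOf_dvd_of_pow_eq_one hcr) (orderOf_dvd_of_pow_eq_one hcs)
      exact orderOf_eq_one_iff.mp (Nat.dvd_one.mp h5)
    rw [hc1, one_mul] at h2
    have : a * b = b * a := by
      calc a * b = (a * b * a⁻¹) * a := by group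
        _ = b * a := by rw [h2]
    exact this

/-- A finitely generated nilpotent group of finite exponent is finite. -/
lemma finite_of_fg_nilpotent {n : ℕ} (hn : 0 < n) {G : Type u} [Group G] [Group.IsNilpotent G] :
    Group.FG G → ExpDvd n G → Finite G := by
  refine Group.nilpotent_center_quotient_ind
    (P := fun G _ _ => Group.FG G → ExpDvd n G → Finite G) G ?_ ?_
  · intro G _ _ _ _
    infer_instance
  · intro G _ _ ih hfg hexp
    have hq : Group.FG (G ⧸ center G) := inferInstance
    have hfin : Finite (G ⧸ center G) := by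
      apply ih hq
      intro g
      obtain ⟨g, rfl⟩ := QuotientGroup.mk'_surjective (center G) g
      rw [← map_pow, hexp g, map_one]
    have hidx : (center G).FiniteIndex := by
      exact Subgroup.finiteIndex_of_finite_quotient
    have hfg2 : Group.FG (center G) := Subgroup.fg_of_index_ne_zero (center G)
    have hfin2 : Finite (center G) := by
      let cg : CommGroup (center G) :=
        { (center G).toGroup with
          mul_comm := fun a b => Subtype.ext (mem_center_iff.mp b.2 a) }
      refine @CommGroup.finite_of_fg_isMulTorsion (center G) cg hfg2 ?_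
      intro g
      exact isOfFinOrder_iff_pow_eq_one.mpr ⟨n, hn, Subtype.ext (hexp g)⟩
    exact Finite.of_equiv _ (Subgroup.groupEquivQuotientProdSubgroup (s := center G)).symm

/-- The product of two elements of `p`-power order in a locally nilpotent group of exponent `n`. -/
lemma pow_mul_eq_one {n : ℕ} (hn : 0 < n) {G : Type u} [Group G] (hG : LocNilp G)
    (hexp : ExpDvd n G) {p : ℕ} (hp : p.Prime) {a b : G}
    (ha : a ^ (p ^ n.factorization p) = 1) (hb : b ^ (p ^ n.factorization p) = 1) :
    (a * b) ^ (p ^ n.factorization p) = 1 := by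
  classical
  obtain ⟨K, hK⟩ : ∃ K : Subgroup G, K = closure {a, b} := ⟨_, rfl⟩
  have hKfg : K.FG := ⟨{a, b}, by rw [hK]; simp⟩
  have hnil : Group.IsNilpotent K := hG K hKfg
  have hfg : Group.FG K := (Group.fg_iff_subgroup_fg K).mpr hKfg
  have hfin : Finite K := finite_of_fg_nilpotent hn hfg (fun g => Subtype.ext (hexp g))
  have : Fact p.Prime := ⟨hp⟩
  have haK : a ∈ K := by rw [hK]; exact subset_closure (by simp)
  have hbK : b ∈ K := by rw [hK]; exact subset_closure (by simp)
  obtain ⟨P⟩ : Nonempty (Sylow p K) := inferInstance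
  have hPn : (P : Subgroup K).Normal := inferInstance
  have huniq : ∀ Q : Sylow p K, Q = P := by
    intro Q
    have := Sylow.unique_of_normal P hPn
    exact Subsingleton.elim _ _
  have hmem : ∀ x : K, x ^ (p ^ n.factorization p) = 1 → x ∈ P := by
    intro x hx
    have hpg : IsPGroup p (zpowers x) := by
      rintro ⟨y, hy⟩
      obtain ⟨i, rfl⟩ := mem_zpowers_iff.mp hy
      refine ⟨n.factorization p, Subtype.ext ?_⟩
      simp only [SubmonoidClass.mk_pow, OneMemClass.coe_one]
      rw [← zpow_natCast, ← zpow_mul, mul_comm, zpow_mul, zpow_natCast, hx, one_zpow]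
    obtain ⟨Q, hQ⟩ := hpg.exists_le_sylow
    rw [huniq Q] at hQ
    exact hQ (mem_zpowers x)
  have h1 : (⟨a, haK⟩ : K) ∈ P := hmem _ (Subtype.ext ha)
  have h2 : (⟨b, hbK⟩ : K) ∈ P := hmem _ (Subtype.ext hb)
  have h3 : (⟨a, haK⟩ : K) * ⟨b, hbK⟩ ∈ (P : Subgroup K) := mul_mem h1 h2
  obtain ⟨k, hk⟩ := P.isPGroup' ⟨_, h3⟩
  have hk' : (a * b) ^ p ^ k = 1 := by
    have := congrArg (fun z : P => ((z : K) : G)) hk
    simpa using this
  have hd1 : orderOf (a * b) ∣ p ^ k := orderOf_dvd_of_pow_eq_one hk'
  have hd2 : orderOf (a * b) ∣ n := orderOf_dvd_of_pow_eq_one (hexp _)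
  obtain ⟨j, _, hj⟩ := (Nat.dvd_prime_pow hp).mp hd1
  rw [hj] at hd2
  have hle : j ≤ n.factorization p := (hp.pow_dvd_iff_le_factorization hn.ne').mp hd2
  apply orderOf_dvd_iff_pow_eq_one.mp
  rw [hj]
  exact pow_dvd_pow p hle

end Pool.Agent.H63FB
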