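import Pool.Agent.H63FB.Nilp

/-!
Finitely generated nilpotent groups: simple commutators generate the lower central series in the
sense needed here, and every subgroup is finitely generated.
-/

namespace Pool.Agent.H63FB

open Subgroup
open scoped commutatorElement

universe u v

/-- The left-normed commutator of `f 0, ..., f j`, with `[a,b] = a b a⁻¹ b⁻¹`. -/
def sc {G : Type u} [Group G] (f : ℕ → G) : ℕ → G
  | 0 => f 0
  | j + 1 => sc f j * f (j + 1) * (sc f j)⁻¹ * (f (j + 1))⁻¹

lemma sc_congr {G : Type u} [Group G] {f g : ℕ → G} {j : ℕ} (h : ∀ i ≤ j, f i = g i) :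
    sc f j = sc g j := by
  induction j with
  | zero => exact h 0 le_rfl
  | succ j ih =>
    simp only [sc]
    rw [ih (fun i hi => h i (by omega)), h (j + 1) le_rfl]

lemma map_sc {G : Type u} {H : Type v} [Group G] [Group H] (φ : G →* H) (f : ℕ → G) (j : ℕ) :
    φ (sc f j) = sc (fun i => φ (f i)) j := by
  induction j with
  | zero => rfl
  | succ j ih => simp only [sc, map_mul, map_inv, ih]

lemma sc_mem_lcs {G : Type u} [Group G] (f : ℕ → G) (j : ℕ) :
    sc f j ∈ (⊤ : Subgroup G).lowerCentralSeries j := by
  induction j with
  | zero => simp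
  | succ j ih =>
    simp only [sc]
    rw [Subgroup.lowerCentralSeries_succ]
    exact subset_closure ⟨sc f j, ih, f (j + 1), mem_top _, by rw [commutatorElement_def]⟩

lemma lcs_map_surj {G H : Type u} [Group G] [Group H] (φ : G →* H)
    (hφ : Function.Surjective φ) (j : ℕ) :
    ((⊤ : Subgroup G).lowerCentralSeries j).map φ = (⊤ : Subgroup H).lowerCentralSeries j := by
  rw [Subgroup.map_lowerCentralSeries, Subgroup.map_top_of_surjective φ hφ]

/-- If `X` generates `G` and all simple commutators of weight `c + 1` in elements of `X` are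
trivial then `G` is nilpotent of class at most `c`. -/
lemma lcs_eq_bot_of_sc (c : ℕ) : ∀ {G : Type u} [Group G] (X : Set G), closure X = ⊤ →
    (∀ f : ℕ → G, (∀ i, f i ∈ X) → sc f c = 1) →
    (⊤ : Subgroup G).lowerCentralSeries c = ⊥ := by
  induction c with
  | zero =>
    intro G _ X hX h
    rw [Subgroup.lowerCentralSeries_zero, ← hX, closure_eq_bot_iff]
    intro x hx
    exact h (fun _ => x) (fun _ => hx)
  | succ c ih =>
    intro G _ X hX h
    obtain ⟨D, hD⟩ : ∃ D : Subgroup G,
        D = closure {z | ∃ f : ℕ → G, (∀ i, f i ∈ X) ∧ z = sc f c} := ⟨_, rfl⟩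
    have hcen : D ≤ center G := by
      rw [hD, closure_le]
      rintro z ⟨f, hf, rfl⟩
      rw [SetLike.mem_coe, mem_center_iff]
      have hcl : (⊤ : Subgroup G) ≤ centralizer {sc f c} := by
        rw [← hX, closure_le]
        intro x hx
        rw [SetLike.mem_coe, mem_centralizer_singleton_iff]
        have h1 := h (fun i => if i ≤ c then f i else x) (by
          intro i
          by_cases hi : i ≤ c
          · simp only [hi, if_true]; exact hf i
          · simp only [hi, if_false]; exact hx)
        have h2 : sc (fun i => if i ≤ c then f i else x) c = sc f c :=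
          sc_congr (fun i hi => by simp [hi])
        simp only [sc] at h1
        rw [h2] at h1
        have h3 : ¬ (c + 1 ≤ c) := by omega
        simp only [h3, if_false] at h1
        have h4 := mul_inv_eq_one.mp h1
        rw [mul_inv_eq_iff_eq_mul] at h4
        exact h4.symm
      intro g
      have := hcl (mem_top g)
      rw [mem_centralizer_singleton_iff] at this
      exact this
    have hDn : D.Normal := by
      constructor
      intro n hn g
      have := mem_center_iff.mp (hcen hn) g
      have h5 : g * n * g⁻¹ = n := by rw [this]; group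
      rw [h5]
      exact hn
    have h1 : (⊤ : Subgroup (G ⧸ D)).lowerCentralSeries c = ⊥ := by
      apply ih ((QuotientGroup.mk' D) '' X)
      · rw [← MonoidHom.map_closure, hX]
        exact Subgroup.map_top_of_surjective _ (QuotientGroup.mk'_surjective D)
      · intro f hf
        choose g hg hgf using hf
        have h2 : f = fun i => QuotientGroup.mk' D (g i) := funext fun i => (hgf i).symm
        rw [h2, ← map_sc, ← MonoidHom.mem_ker, QuotientGroup.ker_mk', hD]
        exact subset_closure ⟨g, hg, rfl⟩
    have h2 : (⊤ : Subgroup G).lowerCentralSeries c ≤ center G := by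
      refine le_trans ?_ hcen
      intro x hx
      have h3 : QuotientGroup.mk' D x ∈ (⊤ : Subgroup (G ⧸ D)).lowerCentralSeries c := by
        rw [← lcs_map_surj (QuotientGroup.mk' D) (QuotientGroup.mk'_surjective D)]
        exact ⟨x, hx, rfl⟩
      rw [h1, Subgroup.mem_bot, ← MonoidHom.mem_ker, QuotientGroup.ker_mk'] at h3
      exact h3
    exact Subgroup.lowerCentralSeries_succ_eq_bot _ h2

/-- Every subgroup is finitely generated. -/
def AllFG (G : Type u) [Group G] : Prop := ∀ K : Subgroup G, K.FG

lemma allFG_comm {A : Type u} [CommGroup A] (hA : Group.FG A) : AllFG A := by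
  intro K
  have h1 : AddGroup.FG (Additive A) := GroupFG.iff_add_fg.mp hA
  have h2 : Module.Finite ℤ (Additive A) := Module.Finite.iff_addGroup_fg.mpr h1
  have h3 : IsNoetherian ℤ (Additive A) := inferInstance
  have h4 : (AddSubgroup.toIntSubmodule (Subgroup.toAddSubgroup K)).FG := h3.noetherian _
  rw [Submodule.fg_iff_addSubgroup_fg, AddSubgroup.toIntSubmodule_toAddSubgroup] at h4
  exact (Subgroup.fg_iff_add_fg K).mpr h4

/-- Subgroups of a commutative finitely generated subgroup. -/
lemma fg_of_le_comm {G : Type u} [Group G] {A : Subgroup G} (hA : A.FG)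
    (hc : ∀ a ∈ A, ∀ b ∈ A, a * b = b * a) {K : Subgroup G} (hK : K ≤ A) : K.FG := by
  let cg : CommGroup A :=
    { A.toGroup with
      mul_comm := fun a b => Subtype.ext (hc a a.2 b b.2) }
  have h1 : @Group.FG A cg.toGroup := (Group.fg_iff_subgroup_fg A).mpr hA
  obtain ⟨s, hs⟩ := @allFG_comm A cg h1 (K.subgroupOf A)
  classical
  refine ⟨s.image (fun a : A => (a : G)), ?_⟩
  have h2 : (K.subgroupOf A).map A.subtype = K := by
    rw [Subgroup.subgroupOf_map_subtype, inf_eq_left.mpr hK]
  rw [← h2, ← hs, MonoidHom.map_closure, Finset.coe_image]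
  rfl

lemma fg_of_ext {G : Type u} [Group G] (N : Subgroup G) [N.Normal]
    (hN : ∀ K : Subgroup G, K ≤ N → K.FG) (hQ : AllFG (G ⧸ N)) : AllFG G := by
  classical
  intro K
  obtain ⟨s, hs⟩ := hQ (K.map (QuotientGroup.mk' N))
  have hpre : ∀ y : G ⧸ N, ∃ x : G, y ∈ s → x ∈ K ∧ QuotientGroup.mk' N x = y := by
    intro y
    by_cases hy : y ∈ s
    · have : y ∈ K.map (QuotientGroup.mk' N) := by
        rw [← hs]; exact subset_closure hy
      obtain ⟨x, hx, hxy⟩ := this
      exact ⟨x, fun _ => ⟨hx, hxy⟩⟩
    · exact ⟨1, fun h => absurd h hy⟩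
  choose x hx using hpre
  have h1 : closure ((s.image x : Finset G) : Set G) ≤ K := by
    rw [closure_le]
    intro z hz
    obtain ⟨y, hy, rfl⟩ := Finset.mem_image.mp (Finset.mem_coe.mp hz)
    exact (hx y hy).1
  have h2 : (closure ((s.image x : Finset G) : Set G)).map (QuotientGroup.mk' N) =
      K.map (QuotientGroup.mk' N) := by
    apply le_antisymm (Subgroup.map_mono h1)
    rw [← hs, closure_le]
    intro y hy
    exact ⟨x y, subset_closure (Finset.mem_coe.mpr (Finset.mem_image_of_mem x hy)), (hx y hy).2⟩
  have h3 : K = closure ((s.image x : Finset G) : Set G) ⊔ (K ⊓ N) := by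
    apply le_antisymm
    · intro g hg
      have h4 : QuotientGroup.mk' N g ∈
          (closure ((s.image x : Finset G) : Set G)).map (QuotientGroup.mk' N) := by
        rw [h2]; exact ⟨g, hg, rfl⟩
      obtain ⟨h, hh, hgh⟩ := h4
      have h5 : h⁻¹ * g ∈ N := by
        rw [← QuotientGroup.ker_mk' N, MonoidHom.mem_ker, map_mul, map_inv, hgh]
        group
      have h6 : g = h * (h⁻¹ * g) := by group
      rw [h6]
      exact Subgroup.mul_mem_sup hh ⟨K.mul_mem (K.inv_mem (h1 hh)) hg, h5⟩
    · exact sup_le h1 inf_le_left
  rw [h3]
  exact Subgroup.FG.sup ⟨_, rfl⟩ (hN _ inf_le_right)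

/-- Every subgroup of a finitely generated nilpotent group is finitely generated. -/
lemma allFG_of_lcs (c : ℕ) : ∀ {G : Type u} [Group G], Group.FG G →
    (⊤ : Subgroup G).lowerCentralSeries c = ⊥ → AllFG G := by
  induction c with
  | zero =>
    intro G _ _ h K
    rw [Subgroup.lowerCentralSeries_zero] at h
    have : K = ⊥ := by
      rw [eq_bot_iff, ← h]; exact le_top
    rw [this]
    exact Subgroup.FG.bot
  | succ c ih =>
    intro G _ hfg h
    obtain ⟨Z, hZ⟩ : ∃ Z : Subgroup G, Z = (⊤ : Subgroup G).lowerCentralSeries c := ⟨_, rfl⟩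
    have hZn : Z.Normal := by rw [hZ]; infer_instance
    have hZc : Z ≤ center G := by
      rw [← commutator_top_right_eq_bot_iff_le_center, hZ, ← h,
        Subgroup.lowerCentralSeries_succ]
    have hQ : AllFG (G ⧸ Z) := by
      apply ih
      · infer_instance
      · rw [← lcs_map_surj (QuotientGroup.mk' Z) (QuotientGroup.mk'_surjective Z),
          Subgroup.map_eq_bot_iff, QuotientGroup.ker_mk', hZ]
    have hZfg : Z.FG := by
      cases c with
      | zero =>
        rw [hZ, Subgroup.lowerCentralSeries_zero]
        exact hfg.out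
      | succ c =>
        -- `Z = ⁅Y, ⊤⁆` with `Y` the previous term
        obtain ⟨Y, hY⟩ : ∃ Y : Subgroup G, Y = (⊤ : Subgroup G).lowerCentralSeries c := ⟨_, rfl⟩
        obtain ⟨s, hs⟩ := hQ (Y.map (QuotientGroup.mk' Z))
        obtain ⟨t, ht⟩ := hfg.out
        classical
        have hpre : ∀ y : G ⧸ Z, ∃ x : G, y ∈ s → x ∈ Y ∧ QuotientGroup.mk' Z x = y := by
          intro y
          by_cases hy : y ∈ s
          · have : y ∈ Y.map (QuotientGroup.mk' Z) := by
              rw [← hs]; exact subset_closure hy
            obtain ⟨x, hx, hxy⟩ := this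
            exact ⟨x, fun _ => ⟨hx, hxy⟩⟩
          · exact ⟨1, fun h => absurd h hy⟩
        choose x hx using hpre
        let F : Finset G := (s ×ˢ t).image (fun q => ⁅x q.1, q.2⁆)
        have hYZ : ∀ a ∈ Y, ∀ g : G, ⁅a, g⁆ ∈ Z := by
          intro a ha g
          rw [hZ, Subgroup.lowerCentralSeries_succ, ← hY]
          exact subset_closure ⟨a, ha, g, mem_top g, rfl⟩
        have hFZ : closure (F : Set G) ≤ Z := by
          rw [closure_le]
          intro z hz
          obtain ⟨⟨y, g⟩, hq, rfl⟩ := Finset.mem_image.mp (Finset.mem_coe.mp hz)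
          exact hYZ _ (hx y (Finset.mem_product.mp hq).1).1 g
        have hFc : closure (F : Set G) ≤ center G := hFZ.trans hZc
        have hFn : (closure (F : Set G)).Normal := by
          constructor
          intro n hn g
          have := mem_center_iff.mp (hFc hn) g
          have h5 : g * n * g⁻¹ = n := by rw [this]; group
          rw [h5]
          exact hn
        let ρ : G →* G ⧸ closure (F : Set G) := QuotientGroup.mk' (closure (F : Set G))
        -- the images of `x y` are central
        have hcen1 : ∀ y ∈ s, ρ (x y) ∈ center (G ⧸ closure (F : Set G)) := by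
          intro y hy
          have hcl : (⊤ : Subgroup (G ⧸ closure (F : Set G))) ≤ centralizer {ρ (x y)} := by
            rw [← Subgroup.map_top_of_surjective ρ (QuotientGroup.mk'_surjective _), ← ht,
              MonoidHom.map_closure, closure_le]
            rintro _ ⟨g, hg, rfl⟩
            rw [SetLike.mem_coe, mem_centralizer_singleton_iff]
            have h6 : ⁅x y, g⁆ ∈ closure (F : Set G) :=
              subset_closure (Finset.mem_coe.mpr (Finset.mem_image.mpr
                ⟨(y, g), Finset.mem_product.mpr ⟨hy, hg⟩, rfl⟩))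
            have h7 : ρ ⁅x y, g⁆ = 1 := by
              rw [← MonoidHom.mem_ker, QuotientGroup.ker_mk']; exact h6
            rw [commutatorElement_def] at h7
            simp only [map_mul, map_inv] at h7
            have h8 := mul_inv_eq_one.mp h7
            rw [mul_inv_eq_iff_eq_mul] at h8
            exact h8.symm
          rw [mem_center_iff]
          intro g
          have := hcl (mem_top g)
          rw [mem_centralizer_singleton_iff] at this
          exact this
        have hcen2 : ∀ z ∈ Z, ρ z ∈ center (G ⧸ closure (F : Set G)) := by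
          intro z hz
          rw [mem_center_iff]
          intro g
          obtain ⟨g, rfl⟩ := QuotientGroup.mk'_surjective _ g
          have := mem_center_iff.mp (hZc hz) g
          rw [← map_mul, ← map_mul, this]
        have hcen3 : Y.map ρ ≤ center (G ⧸ closure (F : Set G)) := by
          rintro _ ⟨a, ha, rfl⟩
          have h6 : QuotientGroup.mk' Z a ∈ (closure ((s.image x : Finset G) : Set G)).map
              (QuotientGroup.mk' Z) := by
            have h7 : Y.map (QuotientGroup.mk' Z) ≤ (closure ((s.image x : Finset G) : Set G)).map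
                (QuotientGroup.mk' Z) := by
              rw [← hs, closure_le]
              intro y hy
              exact ⟨x y, subset_closure (Finset.mem_coe.mpr (Finset.mem_image_of_mem x hy)),
                (hx y hy).2⟩
            exact h7 ⟨a, ha, rfl⟩
          obtain ⟨b, hb, hab⟩ := h6
          have h8 : b⁻¹ * a ∈ Z := by
            rw [← QuotientGroup.ker_mk' Z, MonoidHom.mem_ker, map_mul, map_inv, hab]
            group
          have h9 : ρ b ∈ center (G ⧸ closure (F : Set G)) := by
            have h10 : closure ((s.image x : Finset G) : Set G) ≤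
                (center (G ⧸ closure (F : Set G))).comap ρ := by
              rw [closure_le]
              intro z hz
              obtain ⟨y, hy, rfl⟩ := Finset.mem_image.mp (Finset.mem_coe.mp hz)
              exact hcen1 y hy
            exact h10 hb
          have h11 : ρ a = ρ b * ρ (b⁻¹ * a) := by rw [← map_mul]; congr 1; group
          rw [h11]
          exact mul_mem h9 (hcen2 _ h8)
        have hZF : Z ≤ closure (F : Set G) := by
          have h12 : ⁅Y, (⊤ : Subgroup G)⁆ ≤ closure (F : Set G) := by
            rw [commutator_le]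
            intro a ha g _
            rw [← QuotientGroup.ker_mk' (closure (F : Set G)), MonoidHom.mem_ker,
              commutatorElement_def]
            have h13 := mem_center_iff.mp (hcen3 ⟨a, ha, rfl⟩) (ρ g)
            simp only [map_mul, map_inv]
            change ρ a * ρ g * (ρ a)⁻¹ * (ρ g)⁻¹ = 1
            rw [← h13]
            group
          rw [hZ, Subgroup.lowerCentralSeries_succ, ← hY]
          exact h12
        exact ⟨F, le_antisymm hFZ hZF⟩
    refine fg_of_ext Z ?_ hQ
    intro K hK
    refine fg_of_le_comm hZfg ?_ hK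
    intro a ha b _
    exact ((mem_center_iff.mp (hZc ha)) b).symm

end Pool.Agent.H63FB
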