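import Pool.Agent.H63FB.Nilp

/-!
Groups of exponent 3 and of exponent 4 are locally finite (Levi and van der Waerden, Sanov), hence
locally nilpotent.
-/

namespace Pool.Agent.H63FB

open Subgroup

universe u

/-! ### Exponent 4 -/

/-- Products `h_0 x h_1 x ... x h_k` with `h_i ∈ H`. -/
def W {G : Type u} [Group G] (H : Subgroup G) (x : G) : ℕ → Set G
  | 0 => H
  | k + 1 => {g | ∃ h ∈ H, ∃ w ∈ W H x k, g = h * x * w}

lemma W_mul {G : Type u} [Group G] {H : Subgroup G} {x : G} {k : ℕ} {h g : G} (hh : h ∈ H)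
    (hg : g ∈ W H x k) : h * g ∈ W H x k := by
  cases k with
  | zero => exact H.mul_mem hh hg
  | succ k =>
    obtain ⟨h', hh', w, hw, rfl⟩ := hg
    exact ⟨h * h', H.mul_mem hh hh', w, hw, by group⟩

lemma W_mul_iff {G : Type u} [Group G] {H : Subgroup G} {x : G} {k : ℕ} {h g : G} (hh : h ∈ H) :
    h * g ∈ W H x k ↔ g ∈ W H x k := by
  constructor
  · intro h1
    have := W_mul (H.inv_mem hh) h1
    simpa using this
  · exact W_mul hh

lemma W_x_mul {G : Type u} [Group G] {H : Subgroup G} {x : G} {k : ℕ} {g : G}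
    (hg : g ∈ W H x k) : x * g ∈ W H x (k + 1) :=
  ⟨1, H.one_mem, g, hg, by group⟩

lemma W_finite {G : Type u} [Group G] {H : Subgroup G} [Finite H] {x : G} (k : ℕ) :
    (W H x k).Finite := by
  have hH : (H : Set G).Finite := Set.toFinite _
  induction k with
  | zero => exact hH
  | succ k ih =>
    apply (Set.Finite.image2 (fun h w => h * x * w) hH ih).subset
    rintro g ⟨h, hh, w, hw, rfl⟩
    exact ⟨h, hh, w, hw, rfl⟩

/-- The possible first letters `r` of the products with value `v`. -/
def R {G : Type u} [Group G] (H : Subgroup G) (x : G) (m : ℕ) (v : G) : Set G :=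
  {r | r ∈ H ∧ ∃ w ∈ W H x m, v = r * x * w}

lemma R_subset {G : Type u} [Group G] {H : Subgroup G} {x : G} {m : ℕ} {v : G} :
    R H x m v ⊆ H := fun _ h => h.1

lemma one_notMem_R {G : Type u} [Group G] {H : Subgroup G} {x : G} (hx : x ^ 2 ∈ H) {m : ℕ}
    {v : G} (hmin : ∀ j < m + 2, x * v ∉ W H x j) : (1 : G) ∉ R H x m v := by
  rintro ⟨_, w, hw, hv⟩
  apply hmin m (by omega)
  have : x * v = x ^ 2 * w := by rw [hv, pow_two]; group
  rw [this]
  exact W_mul hx hw

lemma ncard_R {G : Type u} [Group G] (hexp : ExpDvd 4 G) {H : Subgroup G} [Finite H] {x : G}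
    (hx : x ^ 2 ∈ H) (m : ℕ) : ∀ v : G, v ∈ W H x (m + 1) → (∀ j < m + 2, x * v ∉ W H x j) →
      m + 1 ≤ (R H x m v).ncard := by
  have hH : (H : Set G).Finite := Set.toFinite _
  induction m with
  | zero =>
    rintro v ⟨r, hr, w, hw, rfl⟩ _
    rw [Nat.succ_le_iff, Set.ncard_pos (hH.subset R_subset)]
    exact ⟨r, hr, w, hw, rfl⟩
  | succ m ih =>
    rintro v ⟨r, hr, v', hv', rfl⟩ hmin
    have hmin' : ∀ j < m + 2, x * v' ∉ W H x j := by
      intro j hj hmem
      apply hmin (j + 1) (by omega)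
      have h1 := W_x_mul (W_mul hr hmem)
      have h2 : x * (r * (x * v')) = x * (r * x * v') := by group
      rwa [h2] at h1
    have h1 := ih v' hv' hmin'
    have hone := one_notMem_R hx hmin'
    have hsub : insert r ((fun s => r * s⁻¹) '' R H x m v') ⊆ R H x (m + 1) (r * x * v') := by
      intro t ht
      rcases Set.mem_insert_iff.mp ht with rfl | ht
      · exact ⟨hr, v', hv', rfl⟩
      · obtain ⟨s, ⟨hs, w, hw, hv⟩, rfl⟩ := ht
        refine ⟨H.mul_mem hr (H.inv_mem hs), x ^ (-2 : ℤ) * s⁻¹ * x * (x ^ (-2 : ℤ) * s⁻¹ * w),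
          ?_, ?_⟩
        · have hx2 : x ^ (-2 : ℤ) ∈ H := by
            have := H.inv_mem hx
            simpa using this
          exact ⟨x ^ (-2 : ℤ) * s⁻¹, H.mul_mem hx2 (H.inv_mem hs), _,
            W_mul (H.mul_mem hx2 (H.inv_mem hs)) hw, rfl⟩
        · have h4 : (x * s) ^ 4 = 1 := hexp _
          have h5 : x * s * x = s⁻¹ * x⁻¹ * s⁻¹ * x⁻¹ * s⁻¹ := by
            have h6 : x * s * x * (s * x * s * x * s) = 1 := by
              have : x * s * x * (s * x * s * x * s) = (x * s) ^ 4 := by
                simp only [pow_succ, pow_zero, one_mul, mul_assoc]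
              rw [this, h4]
            have h7 := eq_inv_of_mul_eq_one_left h6
            rw [h7]
            group
          calc r * x * v' = r * (x * s * x) * w := by rw [hv]; group
            _ = r * (s⁻¹ * x⁻¹ * s⁻¹ * x⁻¹ * s⁻¹) * w := by rw [h5]
            _ = r * s⁻¹ * x * (x ^ (-2 : ℤ) * s⁻¹ * x * (x ^ (-2 : ℤ) * s⁻¹ * w)) := by group
    have hinj : Function.Injective (fun s : G => r * s⁻¹) := by
      intro a b hab
      simpa using hab
    have hnot : r ∉ (fun s => r * s⁻¹) '' R H x m v' := by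
      rintro ⟨s, hs, hrs⟩
      have : s = 1 := by simpa using hrs
      rw [this] at hs
      exact hone hs
    have hfin : ((fun s => r * s⁻¹) '' R H x m v').Finite :=
      (hH.subset R_subset).image _
    calc m + 1 + 1 ≤ (R H x m v').ncard + 1 := by omega
      _ = ((fun s => r * s⁻¹) '' R H x m v').ncard + 1 := by
        rw [Set.ncard_image_of_injective _ hinj]
      _ = (insert r ((fun s => r * s⁻¹) '' R H x m v')).ncard := by
        rw [Set.ncard_insert_of_notMem hnot hfin]
      _ ≤ _ := Set.ncard_le_ncard hsub (hH.subset R_subset)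

lemma finite_step4 {G : Type u} [Group G] (hexp : ExpDvd 4 G) {H : Subgroup G} [Finite H] {x : G}
    (hx : x ^ 2 ∈ H) : Finite (closure ((H : Set G) ∪ {x})) := by
  classical
  have hH : (H : Set G).Finite := Set.toFinite _
  have hcl : ∀ g ∈ closure ((H : Set G) ∪ {x}), ∃ k, g ∈ W H x k := by
    intro g hg
    induction hg using closure_induction_left with
    | one => exact ⟨0, H.one_mem⟩
    | mul_left a ha b _ hb =>
      obtain ⟨k, hk⟩ := hb
      rcases ha with ha | ha
      · exact ⟨k, W_mul ha hk⟩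
      · rw [Set.mem_singleton_iff.mp ha]
        exact ⟨k + 1, W_x_mul hk⟩
    | inv_mul_cancel a ha b _ hb =>
      obtain ⟨k, hk⟩ := hb
      rcases ha with ha | ha
      · exact ⟨k, W_mul (H.inv_mem ha) hk⟩
      · rw [Set.mem_singleton_iff.mp ha]
        refine ⟨k + 1, ?_⟩
        have h1 : x⁻¹ * b = (x ^ 2)⁻¹ * (x * b) := by group
        rw [h1]
        exact W_mul (H.inv_mem hx) (W_x_mul hk)
  have hbound : ∀ g ∈ closure ((H : Set G) ∪ {x}), ∃ k ≤ (H : Set G).ncard, g ∈ W H x k := by
    intro g hg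
    have hex := hcl g hg
    refine ⟨Nat.find hex, ?_, Nat.find_spec hex⟩
    by_contra hlt
    push Not at hlt
    have hpos : 0 < (H : Set G).ncard := (Set.ncard_pos hH).mpr ⟨1, H.one_mem⟩
    obtain ⟨m, hm⟩ : ∃ m, Nat.find hex = m + 2 := ⟨Nat.find hex - 2, by omega⟩
    have hspec := Nat.find_spec hex
    rw [hm] at hspec
    obtain ⟨h, hh, v, hv, rfl⟩ := hspec
    have hmin : ∀ j < m + 2, x * v ∉ W H x j := by
      intro j hj hmem
      apply Nat.find_min hex (m := j) (by omega)
      have := W_mul hh hmem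
      have h2 : h * (x * v) = h * x * v := by group
      rwa [h2] at this
    have h1 := ncard_R hexp hx m v hv hmin
    have hone := one_notMem_R hx hmin
    have h2 : (R H x m v).ncard < (H : Set G).ncard := by
      apply Set.ncard_lt_ncard _ hH
      refine ⟨R_subset, fun hle => hone (hle H.one_mem)⟩
    omega
  apply Set.Finite.subset (s := ⋃ k ∈ Finset.range ((H : Set G).ncard + 1), W H x k)
  · exact Set.Finite.biUnion (Finset.finite_toSet _) (fun k _ => W_finite k)
  · intro g hg
    obtain ⟨k, hk, hgk⟩ := hbound g hg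
    exact Set.mem_biUnion (Finset.mem_coe.mpr (Finset.mem_range.mpr (by omega))) hgk

/-- Sanov: groups of exponent 4 are locally finite. -/
theorem locFin_of_exp4 {G : Type u} [Group G] (hexp : ExpDvd 4 G) : LocFin G := by
  classical
  rintro K ⟨s, rfl⟩
  induction s using Finset.induction_on with
  | empty =>
    rw [Finset.coe_empty, Subgroup.closure_empty]
    infer_instance
  | insert a s _ ih =>
    have h1 : (a ^ 2) ^ 2 ∈ closure (s : Set G) := by
      rw [← pow_mul, hexp a]
      exact one_mem _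
    have hf1 := finite_step4 hexp h1
    have h2 : a ^ 2 ∈ closure ((closure (s : Set G) : Set G) ∪ {a ^ 2}) :=
      subset_closure (Or.inr rfl)
    have hf2 := finite_step4 hexp h2
    have hle : closure ((insert a s : Finset G) : Set G) ≤
        closure ((closure ((closure (s : Set G) : Set G) ∪ {a ^ 2}) : Set G) ∪ {a}) := by
      rw [closure_le, Finset.coe_insert, Set.insert_subset_iff]
      refine ⟨subset_closure (Or.inr rfl), ?_⟩
      intro y hy
      exact subset_closure (Or.inl (subset_closure (Or.inl (subset_closure hy))))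
    exact Finite.of_injective (Subgroup.inclusion hle) (Subgroup.inclusion_injective hle)

/-! ### Exponent 3 -/

lemma conj_commute {G : Type u} [Group G] (hexp : ExpDvd 3 G) (x g : G) :
    Commute x (g * x * g⁻¹) := by
  have h1 : x * g * x = g⁻¹ * x⁻¹ * g⁻¹ := by
    have h : x * g * x * (g * x * g) = 1 := by
      have : x * g * x * (g * x * g) = (x * g) ^ 3 := by
        simp only [pow_succ, pow_zero, one_mul, mul_assoc]
      rw [this, hexp]
    rw [eq_inv_of_mul_eq_one_left h]
    group
  have h2 : x * g⁻¹ * x = g * x⁻¹ * g := by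
    have h : x * g⁻¹ * x * (g⁻¹ * x * g⁻¹) = 1 := by
      have : x * g⁻¹ * x * (g⁻¹ * x * g⁻¹) = (x * g⁻¹) ^ 3 := by
        simp only [pow_succ, pow_zero, one_mul, mul_assoc]
      rw [this, hexp]
    rw [eq_inv_of_mul_eq_one_left h]
    group
  have hg : g⁻¹ * g⁻¹ = g := by
    have h3 := hexp g
    have h5 : g * g * g = 1 := by
      rw [← h3]
      simp only [pow_succ, pow_zero, one_mul]
    have h4 := eq_inv_of_mul_eq_one_right h5
    rw [← mul_inv_rev]
    exact h4.symm
  have hg2 : g * g = g⁻¹ := by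
    have h3 := hexp g
    have : g * g * g = 1 := by
      rw [← h3]
      simp only [pow_succ, pow_zero, one_mul]
    exact eq_inv_of_mul_eq_one_left this
  have e1 : x * (g * x * g⁻¹) = g⁻¹ * x⁻¹ * g := by
    calc x * (g * x * g⁻¹) = (x * g * x) * g⁻¹ := by group
      _ = g⁻¹ * x⁻¹ * (g⁻¹ * g⁻¹) := by rw [h1]; group
      _ = g⁻¹ * x⁻¹ * g := by rw [hg]
  have e2 : (g * x * g⁻¹) * x = g⁻¹ * x⁻¹ * g := by
    calc (g * x * g⁻¹) * x = g * (x * g⁻¹ * x) := by group
      _ = (g * g) * x⁻¹ * g := by rw [h2]; group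
      _ = g⁻¹ * x⁻¹ * g := by rw [hg2]
  exact e1.trans e2.symm

lemma finite_step3 {G : Type u} [Group G] (hexp : ExpDvd 3 G) {H : Subgroup G} [Finite H] (x : G) :
    Finite (closure ((H : Set G) ∪ {x})) := by
  classical
  have hH : (H : Set G).Finite := Set.toFinite _
  obtain ⟨N, hN⟩ : ∃ N : Subgroup G, N = closure ((fun h : G => h * x * h⁻¹) '' (H : Set G)) :=
    ⟨_, rfl⟩
  have hcomm : ∀ a ∈ N, ∀ b ∈ N, Commute a b := by
    intro a ha b hb
    rw [hN] at ha hb
    refine commute_closure ?_ ha hb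
    rintro _ ⟨h, _, rfl⟩ _ ⟨h', _, rfl⟩
    have h1 := conj_commute hexp (h * x * h⁻¹) (h' * h⁻¹)
    have h2 : h' * h⁻¹ * (h * x * h⁻¹) * (h' * h⁻¹)⁻¹ = h' * x * h'⁻¹ := by group
    rw [h2] at h1
    exact h1
  have hNfg : N.FG := ⟨(hH.image (fun h : G => h * x * h⁻¹)).toFinset, by
    rw [Set.Finite.coe_toFinset, hN]⟩
  have hfgN : Group.FG N := (Group.fg_iff_subgroup_fg N).mpr hNfg
  have hNfin : Finite N := by
    let cg : CommGroup N :=
      { N.toGroup with
        mul_comm := fun a b => Subtype.ext (hcomm a a.2 b b.2) }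
    refine @CommGroup.finite_of_fg_isMulTorsion N cg hfgN ?_
    intro g
    exact isOfFinOrder_iff_pow_eq_one.mpr ⟨3, by norm_num, Subtype.ext (hexp g)⟩
  have hNs : (N : Set G).Finite := Set.toFinite _
  have hxN : ∀ h ∈ H, h⁻¹ * x * h ∈ N := by
    intro h hh
    rw [hN]
    exact subset_closure ⟨h⁻¹, H.inv_mem hh, by simp⟩
  have hcl : ∀ g ∈ closure ((H : Set G) ∪ {x}), g ∈ Set.image2 (fun h n => h * n)
      (H : Set G) (N : Set G) := by
    intro g hg
    induction hg using closure_induction_left with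
    | one => exact ⟨1, H.one_mem, 1, N.one_mem, by simp⟩
    | mul_left a ha b _ hb =>
      obtain ⟨h, hh, n, hn, rfl⟩ := hb
      rcases ha with ha | ha
      · exact ⟨a * h, H.mul_mem ha hh, n, hn, by group⟩
      · rw [Set.mem_singleton_iff.mp ha]
        exact ⟨h, hh, (h⁻¹ * x * h) * n, N.mul_mem (hxN h hh) hn, by group⟩
    | inv_mul_cancel a ha b _ hb =>
      obtain ⟨h, hh, n, hn, rfl⟩ := hb
      rcases ha with ha | ha
      · exact ⟨a⁻¹ * h, H.mul_mem (H.inv_mem ha) hh, n, hn, by group⟩
      · rw [Set.mem_singleton_iff.mp ha]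
        exact ⟨h, hh, (h⁻¹ * x * h)⁻¹ * n, N.mul_mem (N.inv_mem (hxN h hh)) hn, by group⟩
  exact Set.Finite.subset (Set.Finite.image2 _ hH hNs) hcl

/-- Groups of exponent 3 are locally finite. -/
theorem locFin_of_exp3 {G : Type u} [Group G] (hexp : ExpDvd 3 G) : LocFin G := by
  classical
  rintro K ⟨s, rfl⟩
  induction s using Finset.induction_on with
  | empty =>
    rw [Finset.coe_empty, Subgroup.closure_empty]
    infer_instance
  | insert a s _ ih =>
    have hf1 := finite_step3 hexp (H := closure (s : Set G)) a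
    have hle : closure ((insert a s : Finset G) : Set G) ≤
        closure ((closure (s : Set G) : Set G) ∪ {a}) := by
      rw [closure_le, Finset.coe_insert, Set.insert_subset_iff]
      refine ⟨subset_closure (Or.inr rfl), ?_⟩
      intro y hy
      exact subset_closure (Or.inl (subset_closure hy))
    exact Finite.of_injective (Subgroup.inclusion hle) (Subgroup.inclusion_injective hle)

/-- A locally finite group of prime power exponent is locally nilpotent. -/
lemma LocFin.locNilp {G : Type u} [Group G] (h : LocFin G) {p k : ℕ} (hp : p.Prime)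
    (hexp : ExpDvd (p ^ k) G) : LocNilp G := by
  intro K hK
  have := h K hK
  have : Fact p.Prime := ⟨hp⟩
  apply IsPGroup.isNilpotent (p := p)
  intro g
  exact ⟨k, Subtype.ext (hexp g)⟩

end Pool.Agent.H63FB
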