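import Pool.Agent.H63FB.Bound
import Pool.Agent.H63FB.Sanov

/-!
The finite basis question for the locally nilpotent part of a finitely based strong generalised
Burnside variety with constants `c, e` reduces to exponent `e`, hence to the prime powers exactly
dividing `e`; it has a positive answer if `e` divides 12.
-/

namespace Pool.Agent.H63FB

open Subgroup
open scoped commutatorElement

universe u

/-- A word only involves finitely many variables. -/
lemma support (w : Word) : ∃ k : ℕ, ∀ (G : Type u) (_ : Group G) (f g : ℕ → G),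
    (∀ i < k, f i = g i) → FreeGroup.lift f w = FreeGroup.lift g w := by
  induction w using FreeGroup.induction_on with
  | C1 => exact ⟨0, fun G _ f g _ => by simp⟩
  | of i => exact ⟨i + 1, fun G _ f g h => by simpa using h i (by omega)⟩
  | inv_of i _ => exact ⟨i + 1, fun G _ f g h => by simpa using h i (by omega)⟩
  | mul x y hx hy =>
    obtain ⟨k1, h1⟩ := hx
    obtain ⟨k2, h2⟩ := hy
    refine ⟨max k1 k2, fun G _ f g h => ?_⟩
    rw [map_mul, map_mul, h1 G _ f g (fun i hi => h i (lt_max_of_lt_left hi)),
      h2 G _ f g (fun i hi => h i (lt_max_of_lt_right hi))]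

lemma support_finset (T : Finset Word) : ∃ k : ℕ, ∀ w ∈ T, ∀ (G : Type u) (_ : Group G)
    (f g : ℕ → G), (∀ i < k, f i = g i) → FreeGroup.lift f w = FreeGroup.lift g w := by
  choose k hk using support.{u}
  refine ⟨T.sup k, fun w hw G _ f g h => hk w G _ f g (fun i hi => h i ?_)⟩
  exact lt_of_lt_of_le hi (Finset.le_sup hw)

/-- The subgroup generated by the first `k` values of `f`. -/
def gen {G : Type u} [Group G] (k : ℕ) (f : ℕ → G) : Subgroup G := closure (f '' {i | i < k})

lemma mem_gen {G : Type u} [Group G] {k : ℕ} (f : ℕ → G) {i : ℕ} (hi : i < k) : f i ∈ gen k f :=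
  subset_closure ⟨i, hi, rfl⟩

open Classical in
/-- The first `k` values of `f` as elements of the subgroup they generate. -/
noncomputable def res {G : Type u} [Group G] (k : ℕ) (f : ℕ → G) : ℕ → gen k f :=
  fun i => if h : i < k then ⟨f i, mem_gen f h⟩ else 1

lemma res_coe {G : Type u} [Group G] {k : ℕ} (f : ℕ → G) {i : ℕ} (hi : i < k) :
    ((res k f i : gen k f) : G) = f i := by
  simp [res, hi]

lemma res_closure {G : Type u} [Group G] (k : ℕ) (f : ℕ → G) :
    closure (res k f '' {i | i < k}) = ⊤ := by
  rw [← map_subtype_inj, MonoidHom.map_closure, ← MonoidHom.range_eq_map, Subgroup.range_subtype]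
  have h1 : (gen k f).subtype '' (res k f '' {i | i < k}) = f '' {i | i < k} := by
    rw [Set.image_image]
    apply Set.image_congr
    intro i hi
    exact res_coe f hi
  rw [h1]
  rfl

lemma sc_mem_lcs_sub {G : Type u} [Group G] {N : Subgroup G} {f : ℕ → G} (hf : ∀ i, f i ∈ N)
    (j : ℕ) : sc f j ∈ N.lowerCentralSeries j := by
  induction j with
  | zero => exact hf 0
  | succ j ih =>
    simp only [sc]
    rw [Subgroup.lowerCentralSeries_succ]
    exact commutator_mem_commutator ih (hf (j + 1))

lemma pow_mem_powGen {H : Type u} [Group H] (x : H) (e : ℕ) : x ^ e ∈ PowGen H e :=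
  Subgroup.subset_closure ⟨x, rfl⟩

/-- The main step: from exponent `e` to the whole locally nilpotent part. -/
theorem periodic {c e : ℕ} (he : 0 < e) (S : Finset Word)
    (hSGB : ∀ (G : Type u) (_ : Group G), InVar (S : Set Word) G → LocNilp G →
      InNB c e G ∧ InBN c e G)
    (hC : FinBased.{u} (fun G _ => InVar (S : Set Word) G ∧ LocNilp G ∧ ExpDvd e G)) :
    FinBased.{u} (fun G _ => InVar (S : Set Word) G ∧ LocNilp G) := by
  classical
  obtain ⟨T, hT⟩ := hC
  obtain ⟨k0, hk0⟩ := support_finset.{u} T
  obtain ⟨k, hk1, hk2, hk3⟩ : ∃ k, k0 ≤ k ∧ c + 1 ≤ k ∧ 2 ≤ k :=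
    ⟨max k0 (max (c + 1) 2), le_max_left _ _, le_max_of_le_right (le_max_left _ _),
      le_max_of_le_right (le_max_right _ _)⟩
  obtain ⟨d, hd⟩ := bound he hSGB hT k
  -- the bound, for subgroups
  have hd' : ∀ (G : Type u) (_ : Group G), InVar (S : Set Word) G → LocNilp G → ∀ f : ℕ → G,
      (⊤ : Subgroup (gen k f)).lowerCentralSeries d = ⊥ := by
    intro G _ h1 h2 f
    exact hd (gen k f) _ (fun w hw => sat_subgroup _ (h1 w hw)) (h2.subgroup _) (res k f)
      (res_closure k f)
  let t : (Fin (d + 1) → Fin k) → ℕ → ℕ := fun s i => if h : i < d + 1 then (s ⟨i, h⟩ : ℕ) else 0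
  have ht : ∀ s, ∀ i ≤ d, t s i < k := by
    intro s i hi
    have : i < d + 1 := by omega
    simp only [t, this, dif_pos]
    exact (s ⟨i, this⟩).2
  let E : Finset Word := Finset.univ.image (fun s : Fin (d + 1) → Fin k =>
    sc (fun i => (FreeGroup.of (t s i) : Word)) d)
  refine ⟨S ∪ E, ?_⟩
  intro G inst
  constructor
  · rintro ⟨h1, h2⟩ w hw
    have hw' : w ∈ S ∪ E := hw
    rcases Finset.mem_union.mp hw' with hw1 | hw1
    · exact h1 w hw1
    · obtain ⟨s, _, rfl⟩ := Finset.mem_image.mp hw1
      intro f
      rw [map_sc]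
      simp only [FreeGroup.lift_apply_of]
      have h3 := sc_mem_lcs (fun i => res k f (t s i)) d
      rw [hd' G inst h1 h2 f, Subgroup.mem_bot] at h3
      have h4 := congrArg (gen k f).subtype h3
      rw [map_sc, map_one] at h4
      rw [← h4]
      apply sc_congr
      intro i hi
      exact (res_coe f (ht s i hi)).symm
  · intro h
    have hV : InVar (S : Set Word) G := fun w hw => h w (Finset.mem_union_left _ hw)
    have hE : ∀ s : Fin (d + 1) → Fin k,
        Sat G (sc (fun i => (FreeGroup.of (t s i) : Word)) d) := fun s =>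
      h _ (Finset.mem_union_right _ (Finset.mem_image_of_mem _ (Finset.mem_univ s)))
    refine ⟨hV, ?_⟩
    intro K hK
    have hKfg : Group.FG K := (Group.fg_iff_subgroup_fg K).mpr hK
    have hKV : InVar (S : Set Word) K := fun w hw => sat_subgroup _ (hV w hw)
    have hKE : ∀ s : Fin (d + 1) → Fin k,
        Sat K (sc (fun i => (FreeGroup.of (t s i) : Word)) d) := fun s => sat_subgroup _ (hE s)
    -- (i) `k`-generator subgroups are nilpotent of class at most `d`
    have hgen : ∀ f : ℕ → K, (⊤ : Subgroup (gen k f)).lowerCentralSeries d = ⊥ := by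
      intro f
      apply lcs_eq_bot_of_sc d (res k f '' {i | i < k}) (res_closure k f)
      intro g hg
      choose a ha hag using hg
      have h3 : sc (fun i => f (a i)) d = 1 := by
        have h4 := hKE (fun i => ⟨a i, ha i⟩) f
        rw [map_sc] at h4
        simp only [FreeGroup.lift_apply_of] at h4
        rw [← h4]
        apply sc_congr
        intro i hi
        have : i < d + 1 := by omega
        simp only [t, this, dif_pos]
      apply Subtype.ext
      have h5 := map_sc (gen k f).subtype g d
      refine h5.trans ?_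
      rw [OneMemClass.coe_one, ← h3]
      apply sc_congr
      intro i _
      change ((g i : gen k f) : K) = f (a i)
      rw [← hag i]
      exact res_coe f (ha i)
    have hgenL : ∀ f : ℕ → K, LocNilp (gen k f) := fun f =>
      locNilp_of_nilpotent (Subgroup.nilpotent_iff_lowerCentralSeries.mpr ⟨d, hgen f⟩)
    have hgenV : ∀ f : ℕ → K, InVar (S : Set Word) (gen k f) := fun f w hw =>
      sat_subgroup _ (hKV w hw)
    -- (ii) the quotient by the `e`-th powers
    have hn : (PowGen K e).Normal := powGen_normal K e
    have hQT : InVar (T : Set Word) (K ⧸ PowGen K e) := by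
      intro w hw f'
      choose f hf using fun i => QuotientGroup.mk'_surjective (PowGen K e) (f' i)
      have h1 : f' = fun i => QuotientGroup.mk' (PowGen K e) (f i) :=
        funext fun i => (hf i).symm
      rw [h1, ← map_lift, ← MonoidHom.mem_ker, QuotientGroup.ker_mk']
      have h2 : FreeGroup.lift (res k f) w ∈ PowGen (gen k f) e :=
        quot_sat hT (hgenV f) (hgenL f) hw
      have h3 : FreeGroup.lift f w = (gen k f).subtype (FreeGroup.lift (res k f) w) := by
        rw [map_lift]
        apply hk0 w hw
        intro i hi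
        exact (res_coe f (lt_of_lt_of_le hi hk1)).symm
      rw [h3]
      exact powGen_map (gen k f).subtype e ⟨_, h2, rfl⟩
    obtain ⟨_, hQL, hQe⟩ := (hT _ _).mpr hQT
    have hQfg : Group.FG (K ⧸ PowGen K e) :=
      Group.fg_of_surjective (QuotientGroup.mk'_surjective (PowGen K e))
    have hQnil : Group.IsNilpotent (K ⧸ PowGen K e) := hQL.of_fg
    have hQfin : Finite (K ⧸ PowGen K e) := finite_of_fg_nilpotent he hQfg hQe
    -- (iii) the subgroup generated by the `e`-th powers is nilpotent
    have hN : Group.IsNilpotent (PowGen K e) := by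
      rw [Subgroup.nilpotent_iff_lowerCentralSeries]
      refine ⟨c, lcs_eq_bot_of_sc c {x | ∃ y : K, (x : K) = y ^ e} ?_ ?_⟩
      · rw [← map_subtype_inj, MonoidHom.map_closure, ← MonoidHom.range_eq_map,
          Subgroup.range_subtype]
        have h1 : (PowGen K e).subtype '' {x | ∃ y : K, (x : K) = y ^ e} =
            Set.range fun x : K => x ^ e := by
          ext z
          constructor
          · rintro ⟨x, ⟨y, hy⟩, rfl⟩
            exact ⟨y, hy.symm⟩
          · rintro ⟨y, rfl⟩
            exact ⟨⟨y ^ e, pow_mem_powGen y e⟩, ⟨y, rfl⟩, rfl⟩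
        rw [h1]
        rfl
      · intro g hg
        choose y hy using hg
        have h2 := powGen_lcs (hSGB (gen k y) _ (hgenV y) (hgenL y)).1
        have h3 : sc (fun i => (res k y i) ^ e) c ∈
            (PowGen (gen k y) e).lowerCentralSeries c :=
          sc_mem_lcs_sub (fun i => pow_mem_powGen (res k y i) e) c
        rw [h2, Subgroup.mem_bot] at h3
        apply Subtype.ext
        have h4 := map_sc (PowGen K e).subtype g c
        refine h4.trans ?_
        have h5 := congrArg (gen k y).subtype h3
        rw [map_sc, map_one] at h5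
        rw [OneMemClass.coe_one, ← h5]
        apply sc_congr
        intro i hi
        change ((g i : PowGen K e) : K) = (((res k y i) ^ e : gen k y) : K)
        rw [hy i, SubmonoidClass.coe_pow, res_coe y (by omega)]
    -- (iv) Engel law
    have heng : ∀ a y : K, eng y d a = 1 := by
      intro a y
      let f : ℕ → K := fun i => if i = 0 then a else y
      have h0 : f 0 = a := rfl
      have h1 : f 1 = y := rfl
      have h2 := sc_mem_lcs (fun i => if i = 0 then res k f 0 else res k f 1) d
      rw [hgen f, Subgroup.mem_bot] at h2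
      have h3 := congrArg (gen k f).subtype h2
      rw [map_sc, map_one] at h3
      rw [eng_eq_sc, ← h3]
      apply sc_congr
      intro i _
      by_cases hi : i = 0
      · simp only [hi, if_true]
        change a = ((res k f 0 : gen k f) : K)
        rw [res_coe f (by omega)]
        exact h0.symm
      · simp only [hi, if_false]
        change y = ((res k f 1 : gen k f) : K)
        rw [res_coe f (by omega)]
        exact h1.symm
    -- (v) conclusion
    refine nilpotent_of_engel d _ K (K ⧸ PowGen K e) (QuotientGroup.mk' (PowGen K e)) hQfin hQnil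
      rfl ?_ heng
    rw [QuotientGroup.ker_mk']
    exact hN

/-- Both directions. -/
theorem periodic_iff {c e : ℕ} (he : 0 < e) (S : Finset Word)
    (hSGB : ∀ (G : Type u) (_ : Group G), InVar (S : Set Word) G → LocNilp G →
      InNB c e G ∧ InBN c e G) :
    FinBased.{u} (fun G _ => InVar (S : Set Word) G ∧ LocNilp G) ↔
      ∀ p : ℕ, p.Prime → p ∣ e →
        FinBased.{u} (fun G _ => InVar (S : Set Word) G ∧ LocNilp G ∧
          ExpDvd (p ^ e.factorization p) G) := by
  classical
  have hS' : ∀ (G : Type u) (_ : Group G),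
      InVar ((insert (FreeGroup.of 0 ^ e) S : Finset Word) : Set Word) G ↔
        InVar (S : Set Word) G ∧ ExpDvd e G := by
    intro G _
    constructor
    · intro h
      refine ⟨fun w hw => h w ?_, (sat_pow_iff e).mp (h _ ?_)⟩
      · rw [Finset.coe_insert]; exact Set.mem_insert_of_mem _ hw
      · rw [Finset.coe_insert]; exact Set.mem_insert _ _
    · rintro ⟨h1, h2⟩ w hw
      rw [Finset.coe_insert, Set.mem_insert_iff] at hw
      rcases hw with rfl | hw
      · exact (sat_pow_iff e).mpr h2
      · exact h1 w hw
  have hred := reduction.{u} e he (insert (FreeGroup.of 0 ^ e) S)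
    (fun G _ h => ((hS' G _).mp h).2)
  constructor
  · rintro ⟨T, hT⟩ p hp _
    refine ⟨insert (FreeGroup.of 0 ^ (p ^ e.factorization p)) T, ?_⟩
    intro G inst
    constructor
    · rintro ⟨h1, h2, h3⟩ w hw
      rw [Finset.coe_insert, Set.mem_insert_iff] at hw
      rcases hw with rfl | hw
      · exact (sat_pow_iff _).mpr h3
      · exact (hT G inst).mp ⟨h1, h2⟩ w hw
    · intro h
      have h1 := (hT G inst).mpr (fun w hw => h w (by
        rw [Finset.coe_insert]; exact Set.mem_insert_of_mem _ hw))
      refine ⟨h1.1, h1.2, (sat_pow_iff _).mp (h _ (by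
        rw [Finset.coe_insert]; exact Set.mem_insert _ _))⟩
  · intro hP
    apply periodic he S hSGB
    have h1 : FinBased.{u} (fun G _ =>
        InVar ((insert (FreeGroup.of 0 ^ e) S : Finset Word) : Set Word) G ∧ LocNilp G) := by
      apply hred.mpr
      intro p hp hpe
      obtain ⟨T, hT⟩ := hP p hp hpe
      refine ⟨T, fun G inst => ?_⟩
      rw [← hT G inst]
      dsimp only
      rw [hS' G inst]
      constructor
      · rintro ⟨⟨h1, _⟩, h2, h3⟩
        exact ⟨h1, h2, h3⟩
      · rintro ⟨h1, h2, h3⟩
        refine ⟨⟨h1, fun g => ?_⟩, h2, h3⟩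
        rw [← qm_mul e p, pow_mul, h3 g, one_pow]
    obtain ⟨T, hT⟩ := h1
    refine ⟨T, fun G inst => ?_⟩
    rw [← hT G inst]
    dsimp only
    rw [hS' G inst]
    tauto

/-- If for every prime `p` dividing `e` the maximal power of `p` dividing `e` is 2, 3 or 4, or the
groups in the variety whose exponent divides that power are locally finite, then the locally
nilpotent part is finitely based. -/
theorem small {c e : ℕ} (S : Finset Word) (h : IsSGB.{u} c e (S : Set Word))
    (hLF : ∀ p : ℕ, p.Prime → p ∣ e → p ^ e.factorization p ∉ ({2, 3, 4} : Set ℕ) →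
      ∀ (G : Type u) (_ : Group G), InVar (S : Set Word) G →
        ExpDvd (p ^ e.factorization p) G → LocFin G) :
    FinBased.{u} (Bar (S : Set Word)) := by
  classical
  apply (periodic_iff h.2.1 S h.2.2).mpr
  intro p hp hpe
  have hLF' : ∀ (G : Type u) (_ : Group G), InVar (S : Set Word) G →
      ExpDvd (p ^ e.factorization p) G → LocFin G := by
    intro G _ hG hexp
    by_cases hq : p ^ e.factorization p ∈ ({2, 3, 4} : Set ℕ)
    · simp only [Set.mem_insert_iff, Set.mem_singleton_iff] at hq
      rcases hq with hq | hq | hq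
      · apply locFin_of_exp4
        intro g
        have h1 := hexp g
        rw [hq] at h1
        rw [show (4 : ℕ) = 2 * 2 from rfl, pow_mul, h1, one_pow]
      · rw [hq] at hexp
        exact locFin_of_exp3 hexp
      · rw [hq] at hexp
        exact locFin_of_exp4 hexp
    · exact hLF p hp hpe hq G _ hG hexp
  refine ⟨insert (FreeGroup.of 0 ^ (p ^ e.factorization p)) S, ?_⟩
  intro G inst
  constructor
  · rintro ⟨h1, _, h3⟩ w hw
    rw [Finset.coe_insert, Set.mem_insert_iff] at hw
    rcases hw with rfl | hw
    · exact (sat_pow_iff _).mpr h3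
    · exact h1 w hw
  · intro h
    have h3 : ExpDvd (p ^ e.factorization p) G := (sat_pow_iff _).mp (h _ (by
      rw [Finset.coe_insert]; exact Set.mem_insert _ _))
    have h1 : InVar (S : Set Word) G := fun w hw => h w (by
      rw [Finset.coe_insert]; exact Set.mem_insert_of_mem _ hw)
    exact ⟨h1, (hLF' G inst h1 h3).locNilp hp h3, h3⟩

/-- The case `e ∣ 12`. -/
theorem twelve {c e : ℕ} (he : e ∣ 12) (S : Finset Word) (h : IsSGB.{u} c e (S : Set Word)) :
    FinBased.{u} (Bar (S : Set Word)) := by
  apply small S h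
  intro p hp hpe hq
  exfalso
  apply hq
  have he12 : e ∈ Nat.divisors 12 := Nat.mem_divisors.mpr ⟨he, by norm_num⟩
  have hp12 : p ∣ 4 * 3 := hpe.trans he
  have hq12 : p ^ e.factorization p ∣ 4 * 3 := (Nat.ordProj_dvd e p).trans he
  have hq1 : p ^ e.factorization p ≠ 1 := by
    intro h1
    have h2 : p ∣ p ^ e.factorization p :=
      dvd_pow_self p (Nat.pos_iff_ne_zero.mp
        (hp.factorization_pos_of_dvd h.2.1.ne' hpe))
    rw [h1] at h2
    exact hp.one_lt.ne' (Nat.dvd_one.mp h2)
  rcases (Nat.Prime.dvd_mul hp).mp hp12 with h4 | h3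
  · have hpeq : p = 2 := by
      have h5 : p ∣ 2 ^ 2 := by norm_num; exact h4
      exact (Nat.prime_dvd_prime_iff_eq hp Nat.prime_two).mp (hp.dvd_of_dvd_pow h5)
    subst hpeq
    have h6 : 2 ^ e.factorization 2 ∣ 2 ^ 2 :=
      (Nat.Coprime.pow_left _ (by norm_num : Nat.Coprime 2 3)).dvd_of_dvd_mul_right hq12
    obtain ⟨j, hj, hj2⟩ := (Nat.dvd_prime_pow Nat.prime_two).mp h6
    rw [hj2] at hq1 ⊢
    interval_cases j
    · exact absurd rfl hq1
    · simp
    · simp
  · have hpeq : p = 3 := (Nat.prime_dvd_prime_iff_eq hp Nat.prime_three).mp h3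
    subst hpeq
    have h6 : 3 ^ e.factorization 3 ∣ 3 :=
      (Nat.Coprime.pow_left _ (by norm_num : Nat.Coprime 3 4)).dvd_of_dvd_mul_left hq12
    rcases (Nat.dvd_prime Nat.prime_three).mp h6 with h7 | h7
    · exact absurd h7 hq1
    · rw [h7]
      simp

end Pool.Agent.H63FB
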